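import Mathlib

namespace Pool.Agent.MP_77ae5d_pr.H74

/-- The square lattice: two points of `ℤ × ℤ` are adjacent when their Euclidean distance is one. -/
def Z2 : SimpleGraph (ℤ × ℤ) where
  Adj a b := (a.1 - b.1) ^ 2 + (a.2 - b.2) ^ 2 = 1
  symm := ⟨fun a b h => by linarith [h, show (b.1 - a.1) ^ 2 = (a.1 - b.1) ^ 2 by ring,
    show (b.2 - a.2) ^ 2 = (a.2 - b.2) ^ 2 by ring]⟩
  loopless := ⟨fun a h => by simp at h⟩

/-- The subgraph of open edges of a bond configuration. -/
def openGraph (ω : Z2.edgeSet → Bool) : SimpleGraph (ℤ × ℤ) :=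
  SimpleGraph.fromEdgeSet {e | ∃ h : e ∈ Z2.edgeSet, ω ⟨e, h⟩ = true}

/-- A graph has an infinite connected component. -/
def HasInfiniteComponent {W : Type} (G : SimpleGraph W) : Prop :=
  ∃ v : W, {w : W | G.Reachable v w}.Infinite

end Pool.Agent.MP_77ae5d_pr.H74
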