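import Pool.Agent.MP_77ae5d_pr.H74.Prob
import Pool.Agent.MP_77ae5d_pr.H74.Defs

/-! The percolation measure and its properties. -/

namespace Pool.Agent.MP_77ae5d_pr.H74

open Relation Set MeasureTheory Filter Topology
open scoped ENNReal

lemma Z2_adj (a b : V) : Z2.Adj a b ↔ adj a b := by
  simp only [Z2, adj]
  constructor
  · intro h
    have h1 : (a.1 - b.1) ^ 2 ≤ 1 := by nlinarith [sq_nonneg (a.2 - b.2)]
    have h2 : (a.2 - b.2) ^ 2 ≤ 1 := by nlinarith [sq_nonneg (a.1 - b.1)]
    have h3 : -1 ≤ a.1 - b.1 := by nlinarith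
    have h4 : a.1 - b.1 ≤ 1 := by nlinarith
    have h5 : -1 ≤ a.2 - b.2 := by nlinarith
    have h6 : a.2 - b.2 ≤ 1 := by nlinarith
    generalize hx : a.1 - b.1 = x at *
    generalize hy : a.2 - b.2 = y at *
    interval_cases x <;> interval_cases y <;> omega
  · rintro (⟨h1, h2 | h2⟩ | ⟨h1, h2 | h2⟩) <;> rw [h1, h2] <;> ring

lemma measurable_rtg {Ω W : Type*} [MeasurableSpace Ω] [Countable W] (r : Ω → W → W → Prop)
    (hr : ∀ a b, Measurable (fun ω => r ω a b)) (a b : W) :
    Measurable (fun ω => ReflTransGen (r ω) a b) := by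
  let R : Ω → ℕ → W → Prop := fun ω n => Nat.rec (fun b => a = b) (fun _ P b => ∃ c, P c ∧ r ω c b) n
  have h1 : ∀ ω b, ReflTransGen (r ω) a b ↔ ∃ n, R ω n b := by
    intro ω b
    constructor
    · intro h
      induction h with
      | refl => exact ⟨0, rfl⟩
      | tail _ hr ih => obtain ⟨n, hn⟩ := ih; exact ⟨n + 1, _, hn, hr⟩
    · rintro ⟨n, hn⟩
      induction n generalizing b with
      | zero => cases hn; exact ReflTransGen.refl
      | succ n ih => obtain ⟨c, h1, h2⟩ := hn; exact (ih c h1).tail h2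
  have h2 : ∀ n b, Measurable (fun ω => R ω n b) := by
    intro n
    induction n with
    | zero => intro b; exact measurable_const
    | succ n ih => intro b; exact Measurable.exists (fun c => (ih c).and (hr c b))
  simp only [h1]
  exact Measurable.exists (fun n => h2 n b)

lemma measurable_inf {Ω W : Type} [MeasurableSpace Ω] [Countable W] (G : Ω → SimpleGraph W)
    (hG : ∀ a b, Measurable (fun ω => (G ω).Adj a b)) :
    MeasurableSet {ω | HasInfiniteComponent (G ω)} := by
  rw [measurableSet_setOf]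
  have : ∀ ω, HasInfiniteComponent (G ω) ↔
      ∃ v, ∀ F : Finset W, ∃ w, w ∉ F ∧ ReflTransGen (G ω).Adj v w := by
    intro ω
    refine exists_congr fun v => ?_
    simp only [SimpleGraph.reachable_iff_reflTransGen]
    constructor
    · intro h F
      obtain ⟨w, h1, h2⟩ := h.exists_notMem_finset F
      exact ⟨w, h2, h1⟩
    · intro h hf
      obtain ⟨w, h1, h2⟩ := h hf.toFinset
      exact h1 (hf.mem_toFinset.2 h2)
  simp only [this]
  exact Measurable.exists fun v => Measurable.forall fun F => Measurable.exists fun w =>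
    measurable_const.and (measurable_rtg (fun ω => (G ω).Adj) hG v w)

lemma openGraph_adj (ω : Z2.edgeSet → Bool) (a b : V) :
    (openGraph ω).Adj a b ↔ ∃ h : Z2.Adj a b, ω ⟨s(a, b), h⟩ = true := by
  simp only [openGraph, SimpleGraph.fromEdgeSet_adj, mem_ofPred_eq]
  exact ⟨fun h => h.1, fun h => ⟨h, h.1.ne⟩⟩

lemma measurable_openGraph_adj (a b : V) :
    Measurable (fun ω : Z2.edgeSet → Bool => (openGraph ω).Adj a b) := by
  simp only [openGraph_adj]
  refine Measurable.exists fun h => ?_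
  exact measurableSet_setOf.1 ((measurableSet_singleton true).preimage (measurable_pi_apply _))

/-- Obstacle `i` covers the edge `e`. -/
def covE (i : Idx) (e : Sym2 V) : Prop := ∃ a b, e = s(a, b) ∧ cov i a b

lemma covE_mk {i : Idx} {a b : V} : covE i s(a, b) ↔ cov i a b := by
  constructor
  · rintro ⟨c, d, h1, h2⟩
    rcases Sym2.eq_iff.1 h1 with ⟨rfl, rfl⟩ | ⟨rfl, rfl⟩
    · exact h2
    · exact h2.symm
  · exact fun h => ⟨a, b, rfl, h⟩

open Classical in
noncomputable def Phi (η : Idx → Bool) (e : Z2.edgeSet) : Bool :=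
  decide (∀ i, covE i e.1 → η i = true)

lemma Phi_true {η : Idx → Bool} {e : Z2.edgeSet} :
    Phi η e = true ↔ ∀ i, covE i e.1 → η i = true := by simp [Phi]

lemma measurable_Phi : Measurable Phi := by
  refine measurable_pi_lambda _ (fun e => measurable_to_bool ?_)
  have : (fun η => Phi η e) ⁻¹' {true} = ⋂ i, ⋂ (_ : covE i e.1), {η | η i = true} := by
    ext η; simp [Phi_true]
  rw [this]
  exact MeasurableSet.iInter fun i => MeasurableSet.iInter fun _ => measurableSet_coord i true

lemma monotone_Phi : Monotone Phi := by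
  intro η ζ h e
  rw [Bool.le_iff_imp, Phi_true, Phi_true]
  exact fun h1 i hi => Bool.le_iff_imp.1 (h i) (h1 i hi)

lemma openGraph_Phi (η : Idx → Bool) (a b : V) : (openGraph (Phi η)).Adj a b ↔ Opn η a b := by
  simp only [openGraph_adj, Phi_true, covE_mk, Opn, exists_prop, Z2_adj]

noncomputable def mu : Measure (Z2.edgeSet → Bool) := PP.map Phi

instance : IsProbabilityMeasure mu := Measure.isProbabilityMeasure_map measurable_Phi.aemeasurable

def permIdx (φ : Z2 ≃g Z2) : Idx ≃ Idx :=
  Equiv.prodCongr φ.toEquiv (Equiv.prodCongr φ.toEquiv (Equiv.refl ℕ))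

lemma permIdx_apply (φ : Z2 ≃g Z2) (i : Idx) : permIdx φ i = (φ i.1, φ i.2.1, i.2.2) := rfl

lemma semiconj (φ : Z2 ≃g Z2) : Function.Semiconj Phi (fun η i => η (permIdx φ i))
    (fun ω e => ω (φ.mapEdgeSet e)) := by
  intro η
  funext ⟨e, he⟩
  rw [Bool.eq_iff_iff, Phi_true, Phi_true]
  induction e using Sym2.ind with
  | _ a b =>
    have key : ∀ i, cov (permIdx φ i) (φ a) (φ b) ↔ cov i a b := fun i =>
      cov_map φ.toEquiv (fun a b => by
        rw [← Z2_adj, ← Z2_adj]; exact φ.map_adj_iff) i a b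
    have e1 : (φ.mapEdgeSet ⟨s(a, b), he⟩).1 = s(φ a, φ b) := rfl
    rw [e1]
    simp only [covE_mk]
    constructor
    · intro h j hj
      obtain ⟨i, rfl⟩ := (permIdx φ).surjective j
      exact h i ((key i).1 hj)
    · exact fun h i hi => h _ ((key i).2 hi)

lemma mp_Phi : MeasurePreserving Phi PP mu := ⟨measurable_Phi, rfl⟩

theorem mu_invariant (φ : Z2 ≃g Z2) : mu.map (fun ω e => ω (φ.mapEdgeSet e)) = mu := by
  have h : MeasurePreserving (fun (η : Idx → Bool) i => η (permIdx φ i)) PP PP :=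
    ⟨by fun_prop, map_perm nu (permIdx φ) (fun _ => rfl)⟩
  exact (mp_Phi.of_semiconj h (semiconj φ) (by fun_prop)).map_eq

theorem mu_ergodic (φ : Z2 ≃g Z2) (t : V) (ht : t ≠ 0) (hφ : ∀ v, φ v = v + t) :
    Ergodic (fun (ω : Z2.edgeSet → Bool) e => ω (φ.mapEdgeSet e)) mu := by
  refine mp_Phi.ergodic_of_ergodic_semiconj (ergodic_perm nu (permIdx φ) (fun _ => rfl) ?_)
    (by fun_prop) (semiconj φ)
  intro F
  have hit : ∀ (m : ℕ) (i : Idx), ((permIdx φ)^[m] i).1 = (i.1.1 + m * t.1, i.1.2 + m * t.2) := by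
    intro m i
    induction m with
    | zero => simp
    | succ m ih =>
      rw [Function.iterate_succ_apply', permIdx_apply, hφ, ih]
      ext <;> simp <;> ring
  obtain ⟨B, hB⟩ := ((F.finite_toSet).image (fun i => linf i.1 0)).bddAbove
  refine ⟨2 * B.toNat + 1, fun i hi hi' => ?_⟩
  have h1 := hB ⟨i, hi, rfl⟩
  have h2 := hB ⟨_, hi', rfl⟩
  simp only [hit, linf_le, Prod.fst_zero, Prod.snd_zero] at h1 h2
  have h3 : t.1 ≠ 0 ∨ t.2 ≠ 0 := by
    by_contra hn
    push Not at hn
    exact ht (Prod.ext hn.1 hn.2)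
  have h4 : ((2 * B.toNat + 1 : ℕ) : ℤ) = 2 * B + 1 := by omega
  have h5 : 0 ≤ B := by omega
  rw [h4] at h2
  rcases h3 with h3 | h3
  · rcases lt_or_gt_of_ne h3 with h | h <;> nlinarith
  · rcases lt_or_gt_of_ne h3 with h | h <;> nlinarith

theorem mu_fkg {A B : Set (Z2.edgeSet → Bool)} (hA : MeasurableSet A) (hB : MeasurableSet B)
    (uA : IsUpperSet A) (uB : IsUpperSet B) : mu A * mu B ≤ mu (A ∩ B) := by
  simp only [mu, Measure.map_apply measurable_Phi hA, Measure.map_apply measurable_Phi hB,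
    Measure.map_apply measurable_Phi (hA.inter hB), preimage_inter]
  exact harris nu (measurable_Phi hA) (measurable_Phi hB) (uA.preimage monotone_Phi)
    (uB.preimage monotone_Phi)

theorem mu_perc : ∀ᵐ ω ∂mu, HasInfiniteComponent (openGraph ω) := by
  rw [mu, ae_map_iff measurable_Phi.aemeasurable (measurable_inf _ measurable_openGraph_adj)]
  filter_upwards [ae_good] with η hη
  obtain ⟨v, hv⟩ := percolates hη
  refine ⟨v, hv.mono fun w hw => ?_⟩
  rw [mem_ofPred_eq, SimpleGraph.reachable_iff_reflTransGen]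
  exact rtg_mono (fun a b h => (openGraph_Phi η a b).2 h) hw

theorem mu_half : ∀ᵐ ω ∂mu,
    ¬ HasInfiniteComponent ((openGraph ω).induce {v : ℤ × ℤ | 0 ≤ v.2}) := by
  refine (ae_map_iff measurable_Phi.aemeasurable
    (measurable_inf (fun ω => (openGraph ω).induce {v : ℤ × ℤ | 0 ≤ v.2})
      (fun a b => measurable_openGraph_adj a.1 b.1)).compl).2 ?_
  have : ∀ᵐ η ∂PP, ∀ v : {v : ℤ × ℤ | 0 ≤ v.2},
      {w | ReflTransGen (fun a b => Opn η a b ∧ 0 ≤ b.2) v.1 w}.Finite :=
    ae_all_iff.2 fun v => ae_blocked v.1 v.2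
  filter_upwards [this] with η hη
  rintro ⟨v, hv⟩
  refine hv (((hη v).preimage Subtype.val_injective.injOn).subset fun w hw => ?_)
  rw [mem_ofPred_eq, SimpleGraph.reachable_iff_reflTransGen] at hw
  exact rtg_lift Subtype.val (fun a b h => ⟨(openGraph_Phi η _ _).1 h, b.2⟩) hw

lemma dep_of_cylinderEvents {ι : Type*} {Δ : Set ι} {A : Set (ι → Bool)}
    (hA : MeasurableSet[cylinderEvents Δ] A) : Dep A Δ := by
  let m : MeasurableSpace (ι → Bool) :=
    { MeasurableSet' := fun A => ∀ η ζ : ι → Bool, (∀ i ∈ Δ, η i = ζ i) → (η ∈ A ↔ ζ ∈ A)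
      measurableSet_empty := fun _ _ _ => Iff.rfl
      measurableSet_compl := fun s hs η ζ h => not_congr (hs η ζ h)
      measurableSet_iUnion := fun f hf η ζ h => by
        simp only [mem_iUnion]; exact exists_congr fun n => hf n η ζ h }
  have : cylinderEvents (X := fun _ : ι => Bool) Δ ≤ m := by
    refine iSup₂_le fun i hi => ?_
    rintro _ ⟨s, -, rfl⟩ η ζ h
    simp only [mem_preimage, h i hi]
  exact fun η ζ h => (this A hA η ζ h).1

lemma null_of_null (e : Z2.edgeSet) (b : Bool) {A : Set (Z2.edgeSet → Bool)}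
    (hA : MeasurableSet[cylinderEvents {e}ᶜ] A) (h0 : mu (A ∩ {ω | ω e = b}) = 0) : mu A = 0 := by
  classical
  have mA : MeasurableSet A := cylinderEvents_le_pi A hA
  have dA := dep_of_cylinderEvents hA
  have mN : MeasurableSet (A ∩ {ω | ω e = b}) := mA.inter (measurableSet_coord e b)
  rw [mu, Measure.map_apply measurable_Phi mN] at h0
  rw [mu, Measure.map_apply measurable_Phi mA]
  have hall : ∀ᵐ η ∂PP, ∀ F G : Finset Idx,
      Phi (F.piecewise (fun i => decide (i ∈ G)) η) ∉ A ∩ {ω | ω e = b} := by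
    simp only [ae_all_iff]
    intro F G
    exact measure_eq_zero_iff_ae_notMem.1
      (null_preimage_piecewise nu nu_ne F _ (measurable_Phi mN) h0)
  rw [measure_eq_zero_iff_ae_notMem]
  filter_upwards [hall, ae_good] with η hη hgood hηA
  obtain ⟨e, he⟩ := e
  induction e using Sym2.ind with
  | _ x y =>
  have hxy : adj x y := (Z2_adj x y).1 he
  have single : ∀ a c : V, adj a c → cov (a, c, 0) a c := fun a c h =>
    ⟨h, Or.inl ⟨rfl, Or.inl ⟨rfl, rfl⟩⟩⟩
  have single' : ∀ (a c : V) (f : Sym2 V), covE (a, c, 0) f → f = s(a, c) := by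
    rintro a c f ⟨p, q, rfl, -, ⟨-, ⟨rfl, rfl⟩ | ⟨rfl, rfl⟩⟩ | ⟨h, -⟩⟩
    · rfl
    · exact Sym2.eq_swap
    · exact absurd rfl h
  cases b
  · refine hη {(x, y, 0)} ∅ ⟨dA _ _ (fun f hf => ?_) hηA, ?_⟩
    · rw [Bool.eq_iff_iff, Phi_true, Phi_true]
      refine forall_congr' fun i => forall_congr' fun hi => ?_
      have : i ≠ (x, y, 0) := by
        rintro rfl
        exact hf (Subtype.ext (single' _ _ _ hi))
      simp [Finset.piecewise, this]
    · rw [mem_ofPred_eq, ← Bool.not_eq_true, Phi_true]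
      intro h
      simpa using h (x, y, 0) (covE_mk.2 (single x y hxy))
  · obtain ⟨k, hk1, hk2⟩ := (hgood.and (eventually_ge_atTop (linf x 0).toNat)).exists
    have hk3 := lt_LL k
    have hk4 := LL_pos k
    have hG : {i | η i = false ∧ cov i x y}.Finite :=
      hk1.finite.subset fun i hi => ⟨hi.1, x, y, hi.2, by omega⟩
    have hH : {j : Idx | j.2.2 = 0 ∧ s(j.1, j.2.1) ≠ s(x, y) ∧
        ∃ i, (η i = false ∧ cov i x y) ∧ cov i j.1 j.2.1}.Finite := by
      refine (hG.biUnion (fun i _ => (finite_cov i).prod ((finite_cov i).prod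
        (finite_singleton 0)))).subset ?_
      rintro j ⟨h1, -, i, h2, h3⟩
      exact mem_iUnion₂.2 ⟨i, h2, ⟨_, h3.symm⟩, ⟨_, h3⟩, h1⟩
    refine hη (hG.toFinset ∪ hH.toFinset) hG.toFinset ⟨dA _ _ (fun f hf => ?_) hηA, ?_⟩
    · obtain ⟨f, hf'⟩ := f
      induction f using Sym2.ind with
      | _ a c =>
      have hne : s(a, c) ≠ s(x, y) := fun h => hf (Subtype.ext h)
      rw [Bool.eq_iff_iff, Phi_true, Phi_true]
      simp only [covE_mk]
      constructor
      · intro h i hi
        by_cases h1 : i ∈ hG.toFinset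
        · simp [Finset.piecewise, h1]
        · by_cases h2 : i ∈ hH.toFinset
          · exfalso
            obtain ⟨g1, g2, j, g3, g4⟩ := hH.mem_toFinset.1 h2
            obtain ⟨u, v, l⟩ := i
            simp only at g1 g4
            subst g1
            have := single' u v _ (covE_mk.2 hi)
            have g5 := h j (covE_mk.1 (this ▸ covE_mk.2 g4))
            simp [g3.1] at g5
          · simp only [Finset.piecewise, Finset.mem_union, h1, h2, or_false, if_false]
            exact h i hi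
      · intro h i hi
        by_contra hn
        have hn' : η i = false := by simpa using hn
        by_cases h1 : cov i x y
        · have m1 : (a, c, 0) ∈ hH.toFinset := hH.mem_toFinset.2 ⟨rfl, hne, i, ⟨hn', h1⟩, hi⟩
          have m2 : (a, c, 0) ∉ hG.toFinset := fun hh =>
            hne (single' a c _ (covE_mk.2 (hG.mem_toFinset.1 hh).2)).symm
          have := h (a, c, 0) (single a c hi.adj)
          simp only [Finset.piecewise, Finset.mem_union, m1, or_true, if_true, m2,
            decide_false] at this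
          exact absurd this (by simp)
        · have m2 : i ∉ hG.toFinset := fun hh => h1 (hG.mem_toFinset.1 hh).2
          have := h i hi
          simp only [Finset.piecewise, m2, decide_false, hn', ite_self] at this
          exact absurd this (by simp)
    · rw [mem_ofPred_eq, Phi_true]
      intro i hi
      rw [covE_mk] at hi
      by_cases h1 : i ∈ hG.toFinset
      · simp [Finset.piecewise, h1]
      · have h2 : i ∉ hH.toFinset := by
          intro h2
          obtain ⟨g1, g2, -⟩ := hH.mem_toFinset.1 h2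
          obtain ⟨u, v, l⟩ := i
          simp only at g1 g2
          subst g1
          exact g2 (single' u v _ (covE_mk.2 hi)).symm
        simp only [Finset.piecewise, Finset.mem_union, h1, h2, or_false, if_false]
        by_contra hn
        exact h1 (hG.mem_toFinset.2 ⟨by simpa using hn, hi⟩)

lemma condExp_pos_lt {Ω : Type*} {m m0 : MeasurableSpace Ω} (μ : Measure Ω)
    [IsProbabilityMeasure μ] (hm : m ≤ m0) {S : Set Ω} (hS : MeasurableSet S)
    (h1 : ∀ A, MeasurableSet[m] A → μ (A ∩ S) = 0 → μ A = 0)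
    (h2 : ∀ A, MeasurableSet[m] A → μ (A ∩ Sᶜ) = 0 → μ A = 0) :
    ∀ᵐ ω ∂μ, 0 < (μ[S.indicator (fun _ => (1 : ℝ)) | m]) ω ∧
      (μ[S.indicator (fun _ => (1 : ℝ)) | m]) ω < 1 := by
  have hint : Integrable (S.indicator (fun _ => (1 : ℝ))) μ :=
    (integrable_const 1).indicator hS
  have hmeas : Measurable[m] (μ[S.indicator (fun _ => (1 : ℝ)) | m]) :=
    stronglyMeasurable_condExp.measurable
  have key : ∀ A, MeasurableSet[m] A →
      ∫ ω in A, (μ[S.indicator (fun _ => (1 : ℝ)) | m]) ω ∂μ = μ.real (A ∩ S) := by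
    intro A hA
    rw [setIntegral_condExp hm hint hA, setIntegral_indicator hS]
    simp
  have a1 : μ {ω | (μ[S.indicator (fun _ => (1 : ℝ)) | m]) ω ≤ 0} = 0 := by
    have hA : MeasurableSet[m] {ω | (μ[S.indicator (fun _ => (1 : ℝ)) | m]) ω ≤ 0} :=
      hmeas measurableSet_Iic
    apply h1 _ hA
    rw [← measureReal_eq_zero_iff (measure_ne_top _ _)]
    refine le_antisymm ?_ measureReal_nonneg
    rw [← key _ hA]
    exact setIntegral_nonpos (hm _ hA) (fun _ h => h)
  have a2 : μ {ω | 1 ≤ (μ[S.indicator (fun _ => (1 : ℝ)) | m]) ω} = 0 := by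
    have hA : MeasurableSet[m] {ω | 1 ≤ (μ[S.indicator (fun _ => (1 : ℝ)) | m]) ω} :=
      hmeas measurableSet_Ici
    apply h2 _ hA
    rw [← measureReal_eq_zero_iff (measure_ne_top _ _)]
    refine le_antisymm ?_ measureReal_nonneg
    have b1 := measureReal_inter_add_sdiff (μ := μ)
      (s := {ω | 1 ≤ (μ[S.indicator (fun _ => (1 : ℝ)) | m]) ω}) hS
    have b2 := setIntegral_mono_on (μ := μ) (f := fun _ => (1 : ℝ))
      (g := μ[S.indicator (fun _ => (1 : ℝ)) | m]) (integrable_const 1).integrableOn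
      integrable_condExp.integrableOn (hm _ hA) (fun _ h => h)
    rw [key _ hA] at b2
    simp only [integral_const, MeasurableSet.univ, measureReal_restrict_apply, univ_inter,
      smul_eq_mul, mul_one] at b2
    rw [← Set.sdiff_eq]
    linarith
  filter_upwards [measure_eq_zero_iff_ae_notMem.1 a1, measure_eq_zero_iff_ae_notMem.1 a2]
    with ω g1 g2
  exact ⟨not_le.1 g1, not_le.1 g2⟩

theorem mu_finite_energy (e : Z2.edgeSet) : ∀ᵐ ω ∂mu,
    0 < (mu[{ω : Z2.edgeSet → Bool | ω e = true}.indicator (fun _ => (1 : ℝ)) |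
      cylinderEvents {e}ᶜ]) ω ∧
    (mu[{ω : Z2.edgeSet → Bool | ω e = true}.indicator (fun _ => (1 : ℝ)) |
      cylinderEvents {e}ᶜ]) ω < 1 := by
  refine condExp_pos_lt mu cylinderEvents_le_pi (measurableSet_coord e true)
    (fun A hA h => null_of_null e true hA h) (fun A hA h => null_of_null e false hA ?_)
  convert h using 3
  ext ω; simp

end Pool.Agent.MP_77ae5d_pr.H74
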