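import Pool.Agent.MP_77ae5d_pr.H74.Strip

/-! The obstacle model: deterministic part. -/

namespace Pool.Agent.MP_77ae5d_pr.H74

open Relation Set

/-- Index of an obstacle: centre, direction vertex, level. -/
abbrev Idx := V × V × ℕ

def LL (k : ℕ) : ℤ := 10 ^ k

lemma LL_pos (k : ℕ) : 1 ≤ LL k := one_le_pow₀ (by norm_num)

lemma LL_succ (k : ℕ) : LL (k + 1) = 10 * LL k := by simp [LL, pow_succ, mul_comm]

lemma LL_mono {j k : ℕ} (h : j ≤ k) : LL j ≤ LL k := pow_le_pow_right₀ (by norm_num) h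

lemma LL_lt {j k : ℕ} (h : j < k) : LL j + 1 ≤ LL k := by
  have h1 := LL_mono (show j + 1 ≤ k from h)
  have h2 := LL_succ j
  have h3 := LL_pos j
  omega

lemma lt_LL (k : ℕ) : (k : ℤ) < LL k := by
  induction k with
  | zero => simp [LL]
  | succ k ih => have := LL_succ k; have := LL_pos k; push_cast; omega

lemma linf_le {a b : V} {r : ℤ} :
    linf a b ≤ r ↔ a.1 - b.1 ≤ r ∧ b.1 - a.1 ≤ r ∧ a.2 - b.2 ≤ r ∧ b.2 - a.2 ≤ r := by
  simp only [linf]; omega

lemma le_linf {a b : V} {r : ℤ} :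
    r ≤ linf a b ↔ r ≤ a.1 - b.1 ∨ r ≤ b.1 - a.1 ∨ r ≤ a.2 - b.2 ∨ r ≤ b.2 - a.2 := by
  simp only [linf]; omega

lemma lt_linf {a b : V} {r : ℤ} :
    r < linf a b ↔ r < a.1 - b.1 ∨ r < b.1 - a.1 ∨ r < a.2 - b.2 ∨ r < b.2 - a.2 := by
  simp only [linf]; omega

lemma linf_tri (a b c : V) : linf a c ≤ linf a b + linf b c := by
  have h1 := linf_le.1 (le_refl (linf a b))
  have h2 := linf_le.1 (le_refl (linf b c))
  rw [linf_le]; omega

lemma linf_comm (a b : V) : linf a b = linf b a := by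
  simp only [linf]; omega

def cov (i : Idx) (a b : V) : Prop :=
  adj i.1 i.2.1 ∧ ((i.2.2 = 0 ∧ ((a = i.1 ∧ b = i.2.1) ∨ (a = i.2.1 ∧ b = i.1))) ∨
    (i.2.2 ≠ 0 ∧ LamS i.1 i.2.1 (LL i.2.2) a b))

lemma cov.symm {i : Idx} {a b : V} (h : cov i a b) : cov i b a := by
  obtain ⟨h1, h2⟩ := h
  refine ⟨h1, h2.imp (fun h => ⟨h.1, ?_⟩) (fun h => ⟨h.1, Or.symm h.2⟩)⟩
  rcases h.2 with h | h
  · exact Or.inr ⟨h.2, h.1⟩
  · exact Or.inl ⟨h.2, h.1⟩

lemma cov.adj {i : Idx} {a b : V} (h : cov i a b) : adj a b := by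
  obtain ⟨h1, ⟨_, ⟨rfl, rfl⟩ | ⟨rfl, rfl⟩⟩ | ⟨_, h | h⟩⟩ := h
  · exact h1
  · exact h1.symm
  · exact h.1
  · exact h.1.symm

lemma cov.linf_bd {i : Idx} {a b : V} (h : cov i a b) : linf a i.1 ≤ LL i.2.2 + 1 := by
  have := LL_pos i.2.2
  obtain ⟨h1, ⟨_, ⟨rfl, rfl⟩ | ⟨rfl, rfl⟩⟩ | ⟨_, h | h⟩⟩ := h <;>
    simp only [H74.adj, linf_le, Lam, d1] at * <;> omega

lemma cov.d1_mem {i : Idx} {a b : V} (h : cov i a b) :
    LL i.2.2 - 1 ≤ d1 i.1 a ∧ d1 i.1 a ≤ LL i.2.2 + 1 := by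
  obtain ⟨h1, ⟨h0, ⟨rfl, rfl⟩ | ⟨rfl, rfl⟩⟩ | ⟨_, h | h⟩⟩ := h
  · simp only [h0, LL, H74.adj, d1] at *; omega
  · simp only [h0, LL, H74.adj, d1] at *; omega
  · simp only [Lam] at h; omega
  · simp only [Lam] at h; omega

/-- `η i = false` means that obstacle `i` is present. -/
def Opn (η : Idx → Bool) (a b : V) : Prop := adj a b ∧ ∀ i, cov i a b → η i = true

lemma Opn.symm {η : Idx → Bool} {a b : V} (h : Opn η a b) : Opn η b a :=
  ⟨h.1.symm, fun i hi => h.2 i hi.symm⟩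

def Mk (η : Idx → Bool) (J : Set Idx) : Set V := {a | ∃ i ∈ J, η i = false ∧ ∃ b, cov i a b}

def JJ (k : ℕ) (z : V) : Set Idx := {i | i.2.2 < k ∧ linf i.1 z ≤ 3 * LL k ∧ adj i.1 i.2.1}

def XX (k : ℕ) (z : V) : Set (Idx → Bool) :=
  {η | ∃ p q, linf p z ≤ LL k ∧ 2 * LL k ≤ linf q z ∧ Chain (Mk η (JJ k z)) p q}

def YY (k : ℕ) (z : V) (M : ℤ) : Set (Idx → Bool) :=
  {η | ∃ p q, linf p z ≤ M * LL k ∧ linf q z ≤ M * LL k ∧ 9 * LL k ≤ linf p q ∧
    Chain (Mk η {i | i.2.2 < k}) p q}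

def TT (k : ℕ) : Set Idx := {i | k ≤ i.2.2 ∧ ∃ a b, cov i a b ∧ linf a 0 ≤ 2000 * LL k}

def Good (k : ℕ) (η : Idx → Bool) : Prop :=
  (∀ i ∈ TT k, ∀ i' ∈ TT k, η i = false → η i' = false → i = i') ∧ η ∉ YY k 0 2000

lemma finite_box (z : V) (r : ℤ) : {a : V | linf a z ≤ r}.Finite := by
  refine ((Set.finite_Icc (z.1 - r) (z.1 + r)).prod (Set.finite_Icc (z.2 - r) (z.2 + r))).subset ?_
  intro a ha
  simp only [mem_ofPred_eq, linf, Set.mem_prod, mem_Icc] at ha ⊢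
  omega

lemma finite_idx (z : V) (r : ℤ) (k : ℕ) :
    {i : Idx | i.2.2 < k ∧ linf i.1 z ≤ r ∧ adj i.1 i.2.1}.Finite := by
  refine ((finite_box z r).prod ((finite_box z (r + 1)).prod (Set.finite_lt_nat k))).subset ?_
  rintro i ⟨h1, h2, h3⟩
  refine ⟨h2, ?_, h1⟩
  simp only [mem_ofPred_eq, linf_le, adj] at *
  omega

lemma finite_JJ (k : ℕ) (z : V) : (JJ k z).Finite := finite_idx z _ k

lemma Chain.mem_right {S : Set V} {p q : V} (h : Chain S p q) (hne : p ≠ q) : q ∈ S := by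
  cases h with
  | refl => exact absurd rfl hne
  | tail _ h => exact h.2.1

lemma loc {η : Idx → Bool} {k : ℕ} {z p q : V} (h : Chain (Mk η {i | i.2.2 < k}) p q)
    (hp : linf p z ≤ LL k) (hq : 2 * LL k ≤ linf q z) : η ∈ XX k z := by
  have := LL_pos k
  obtain ⟨p', q', -, h1, h2, h3⟩ := cross _ (fun a => linf a z)
    (fun a b h => by
      have h1 := h.2.2
      have h2 := linf_le.1 (le_refl (linf a z))
      simp only [near] at h1
      rw [linf_le]; omega) (LL k) (2 * LL k)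
    (by omega) h hp hq
  have key : ∀ a, a ∈ Mk η {i | i.2.2 < k} → linf a z ≤ 2 * LL k → a ∈ Mk η (JJ k z) := by
    rintro a ⟨i, hi, g1, b, g2⟩ ha
    refine ⟨i, ⟨hi, ?_, g2.1⟩, g1, b, g2⟩
    have g3 := g2.linf_bd
    have g4 := LL_lt hi
    have g5 := linf_tri i.1 a z
    rw [linf_comm i.1 a] at g5
    omega
  exact ⟨p', q', h1.le, h2.ge,
    rtg_mono (fun a b h => ⟨key a h.1.1 h.2.2.1, key b h.1.2.1 h.2.2.2.2, h.1.2.2⟩) h3⟩

lemma exists_round (t L M : ℤ) (hL : 0 < L) (h1 : -(M * L) ≤ t) (h2 : t ≤ M * L) :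
    ∃ m, -M ≤ m ∧ m ≤ M ∧ L * m ≤ t ∧ t < L * m + L := by
  have a := Int.emod_add_mul_ediv t L
  have b := Int.emod_nonneg t hL.ne'
  have c := Int.emod_lt_of_pos t hL
  refine ⟨t / L, ?_, ?_, by omega, by omega⟩
  · by_contra hn
    have : t / L + 1 ≤ -M := by omega
    nlinarith
  · by_contra hn
    have : M + 1 ≤ t / L := by omega
    nlinarith

def ctr (k : ℕ) (z m : V) : V := (z.1 + LL k * m.1, z.2 + LL k * m.2)

lemma YY_sub {η : Idx → Bool} {k : ℕ} {z : V} {M : ℤ} (h : η ∈ YY k z M) :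
    ∃ m ∈ Finset.Icc (-M) M ×ˢ Finset.Icc (-M) M, ∃ m' ∈ Finset.Icc (-M) M ×ˢ Finset.Icc (-M) M,
      6 * LL k < linf (ctr k z m) (ctr k z m') ∧ η ∈ XX k (ctr k z m) ∧ η ∈ XX k (ctr k z m') := by
  obtain ⟨p, q, hp, hq, hpq, hc⟩ := h
  have hL := LL_pos k
  rw [linf_le] at hp hq
  rw [le_linf] at hpq
  obtain ⟨a1, a2, a3, a4, a5⟩ := exists_round (p.1 - z.1) (LL k) M (by omega) (by omega) (by omega)
  obtain ⟨b1, b2, b3, b4, b5⟩ := exists_round (p.2 - z.2) (LL k) M (by omega) (by omega) (by omega)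
  obtain ⟨c1, c2, c3, c4, c5⟩ := exists_round (q.1 - z.1) (LL k) M (by omega) (by omega) (by omega)
  obtain ⟨e1, e2, e3, e4, e5⟩ := exists_round (q.2 - z.2) (LL k) M (by omega) (by omega) (by omega)
  refine ⟨(a1, b1), by simp [*], (c1, e1), by simp [*], ?_, loc hc ?_ ?_, loc hc.symm ?_ ?_⟩
  · simp only [lt_linf, ctr]; omega
  · simp only [linf_le, ctr]; omega
  · simp only [le_linf, ctr]; omega
  · simp only [linf_le, ctr]; omega
  · simp only [le_linf, ctr]; omega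

lemma disjoint_JJ {k : ℕ} {z z' : V} (h : 6 * LL k < linf z z') : Disjoint (JJ k z) (JJ k z') := by
  rw [Set.disjoint_left]
  rintro i ⟨-, h1, -⟩ ⟨-, h2, -⟩
  have g5 := linf_tri z i.1 z'
  rw [linf_comm z i.1] at g5
  omega

lemma XX_zero (z : V) : XX 0 z = ∅ := by
  rw [eq_empty_iff_forall_notMem]
  rintro η ⟨p, q, h1, h2, h3⟩
  have hne : p ≠ q := by rintro rfl; have := LL_pos 0; omega
  obtain ⟨i, hi, -⟩ := h3.mem_right hne
  exact absurd hi.1 (by omega)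

lemma XX_succ {η : Idx → Bool} {k : ℕ} {z : V} (h : η ∈ XX (k + 1) z) :
    (∃ i : Idx, i.2.2 = k ∧ linf i.1 z ≤ 30 * LL k ∧ adj i.1 i.2.1 ∧ η i = false) ∨
      η ∈ YY k z 40 := by
  obtain ⟨p, q, h1, h2, h3⟩ := h
  have hL := LL_pos k
  have hs := LL_succ k
  by_cases hz : ∃ i : Idx, i.2.2 = k ∧ linf i.1 z ≤ 30 * LL k ∧ adj i.1 i.2.1 ∧ η i = false
  · exact Or.inl hz
  right
  have hne : p ≠ q := by rintro rfl; omega
  obtain ⟨i, hi, -, b, g⟩ := h3.mem_right hne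
  have g1 := g.linf_bd
  have g2 := LL_lt hi.1
  have g3 := hi.2.1
  have g7 := linf_tri q i.1 z
  have g8 := linf_tri q p z
  rw [linf_comm q p] at g8
  refine ⟨p, q, by omega, by omega, by omega, h3.mono ?_⟩
  rintro a ⟨j, hj, g4, g5⟩
  refine ⟨j, ?_, g4, g5⟩
  have g6 := hj.1
  by_contra hn
  exact hz ⟨j, by simp only [mem_ofPred_eq] at hn; omega, by have := hj.2.1; omega, hj.2.2, g4⟩

lemma Good.mono {k : ℕ} {η η' : Idx → Bool} (h : Good k η) (hle : ∀ i, η' i = false → η i = false) :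
    Good k η' := by
  refine ⟨fun i hi i' hi' h1 h2 => h.1 i hi i' hi' (hle _ h1) (hle _ h2), ?_⟩
  rintro ⟨p, q, h1, h2, h3, h4⟩
  refine h.2 ⟨p, q, h1, h2, h3, h4.mono ?_⟩
  rintro a ⟨i, hi, g1, g2⟩
  exact ⟨i, hi, hle _ g1, g2⟩

lemma Good.finite {k : ℕ} {η : Idx → Bool} (h : Good k η) :
    {i | η i = false ∧ ∃ a b, cov i a b ∧ linf a 0 ≤ 2000 * LL k}.Finite := by
  have h1 : {i | i ∈ TT k ∧ η i = false}.Subsingleton :=
    fun i hi i' hi' => h.1 i hi.1 i' hi'.1 hi.2 hi'.2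
  refine (h1.finite.union (finite_idx 0 (2001 * LL k) k)).subset ?_
  rintro i ⟨g1, a, b, g2, g3⟩
  by_cases hk : k ≤ i.2.2
  · exact Or.inl ⟨⟨hk, a, b, g2, g3⟩, g1⟩
  · right
    have g4 := g2.linf_bd
    have g5 := LL_lt (show i.2.2 < k by omega)
    refine ⟨by omega, ?_, g2.1⟩
    have g6 := linf_tri i.1 a 0
    rw [linf_comm i.1 a] at g6
    omega

lemma Good.step {k : ℕ} {η : Idx → Bool} (h : Good k η) (hk : 1 ≤ k)
    (hw : ∃ w, ReflTransGen (Opn η) 0 w ∧ 200 * LL k ≤ linf w 0) :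
    ∃ w, ReflTransGen (Opn η) 0 w ∧ 200 * LL (k + 1) ≤ linf w 0 := by
  obtain ⟨w, hw, hfar⟩ := hw
  have hL := LL_pos k
  have hs := LL_succ k
  by_contra hcon
  push Not at hcon
  have hb : ∀ v, ReflTransGen (Opn η) 0 v → linf v 0 ≤ 2000 * LL k := fun v hv => by
    have := hcon v hv; omega
  obtain ⟨u, v, L, huv, h1, h2⟩ : ∃ u v L, adj u v ∧
      (∀ a b, ReflTransGen (Opn η) 0 a → Opn η a b → ¬ LamS u v L a b) ∧
      (∀ i ∈ TT k, η i = false → ∀ a b, cov i a b → LamS u v L a b) := by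
    by_cases hex : ∃ i ∈ TT k, η i = false
    · obtain ⟨i, hi, hη⟩ := hex
      have hi0 : i.2.2 ≠ 0 := by have := hi.1; omega
      obtain ⟨a0, b0, g0, -⟩ := hi.2
      refine ⟨i.1, i.2.1, LL i.2.2, g0.1, fun a b _ ho hl => ?_, fun j hj hj' a b hc => ?_⟩
      · have := ho.2 i ⟨g0.1, Or.inr ⟨hi0, hl⟩⟩
        simp [hη] at this
      · have := h.1 j hj i hi hj' hη
        subst this
        rcases hc.2 with g | g
        · exact absurd g.1 hi0
        · exact g.2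
    · refine ⟨(0, 2000 * LL k + 5), (0, 2000 * LL k + 4), 0, by simp [adj]; omega,
        fun a b ha ho hl => ?_, fun j hj hj' => absurd ⟨j, hj, hj'⟩ hex⟩
      have := hb a ha
      simp only [LamS, Lam, d1, linf_le, Prod.fst_zero, Prod.snd_zero] at this hl
      omega
  obtain ⟨p, q, g1, g2⟩ := escape (Opn η) (fun _ _ => Opn.symm) (fun _ _ h => h.1) u v huv L
    (9 * LL k) (2000 * LL k) (by omega) hb h1 w hw (by omega)
  have hne : p ≠ q := by rintro rfl; simp only [linf] at g1; omega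
  refine h.2 ⟨p, q, hb _ (g2.symm.mem_right hne.symm).1, hb _ (g2.mem_right hne).1, g1, g2.mono ?_⟩
  rintro a ⟨ha, b, hab, hno, hnl⟩
  simp only [Opn, hab, true_and, not_forall] at hno
  obtain ⟨i, hi, hη⟩ := hno
  refine ⟨i, ?_, by simpa using hη, b, hi⟩
  by_contra hn
  simp only [mem_ofPred_eq, not_lt] at hn
  exact hnl (h2 i ⟨hn, a, b, hi, hb a ha⟩ (by simpa using hη) a b hi)

lemma finite_cov (i : Idx) : {b | ∃ a, cov i a b}.Finite :=
  (finite_box i.1 (LL i.2.2 + 1)).subset (fun _ ⟨_, h⟩ => h.symm.linf_bd)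

theorem percolates {η : Idx → Bool} (h : ∀ᶠ k in Filter.atTop, Good k η) :
    ∃ v, {w | ReflTransGen (Opn η) v w}.Infinite := by
  classical
  obtain ⟨k1, hk1⟩ := Filter.eventually_atTop.1 h
  set k0 := k1 + 1 with hk0
  have hfin := (hk1 k0 (by omega)).finite
  set F := {i | η i = false ∧ ∃ a b, cov i a b ∧ linf a 0 ≤ 2000 * LL k0} with hF
  let η' : Idx → Bool := fun i => if i ∈ F then true else η i
  have hle : ∀ i, η' i = false → η i = false := by
    intro i hi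
    by_cases hiF : i ∈ F <;> simp_all [η']
  have hL := LL_pos k0
  have hopen : ∀ a b, adj a b → linf a 0 ≤ 2000 * LL k0 → Opn η' a b := by
    intro a b hab ha
    refine ⟨hab, fun i hi => ?_⟩
    by_contra hn
    have hn' : η' i = false := by simpa using hn
    have : i ∈ F := ⟨hle i hn', a, b, hi, ha⟩
    simp [η', this] at hn'
  have base : ∀ n : ℕ, (n : ℤ) ≤ 200 * LL k0 → ReflTransGen (Opn η') 0 ((n : ℤ), 0) := by
    intro n
    induction n with
    | zero => intro _; exact ReflTransGen.refl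
    | succ n ih =>
      intro hn
      push_cast at hn
      refine (ih (by omega)).tail (hopen _ _ (by simp [adj]) ?_)
      simp only [linf, Prod.fst_zero, Prod.snd_zero]; omega
  have all : ∀ k, k0 ≤ k → ∃ w, ReflTransGen (Opn η') 0 w ∧ 200 * LL k ≤ linf w 0 := by
    intro k hk
    induction k, hk using Nat.le_induction with
    | base =>
      refine ⟨_, base (200 * LL k0).toNat (by omega), ?_⟩
      simp only [linf, Prod.fst_zero, Prod.snd_zero]; omega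
    | succ k hk ih => exact ((hk1 k (by omega)).mono hle).step (by omega) ih
  have hinf : {w | ReflTransGen (Opn η') 0 w}.Infinite := by
    intro hf
    obtain ⟨B, hB⟩ := (hf.image (fun w => linf w 0)).bddAbove
    obtain ⟨w, h1, h2⟩ := all (max k0 B.toNat) (le_max_left _ _)
    have h3 := hB ⟨w, h1, rfl⟩
    have h4 := lt_LL (max k0 B.toNat)
    simp only at h3
    omega
  have hT : (insert (0 : V) (⋃ i ∈ F, {b | ∃ a, cov i a b})).Finite :=
    (hfin.biUnion (fun i _ => finite_cov i)).insert 0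
  by_contra hcon
  push Not at hcon
  refine hinf ((hT.biUnion (fun t _ => hcon t)).subset ?_)
  intro w hw
  simp only [mem_iUnion, mem_ofPred_eq] at hw ⊢
  induction hw with
  | refl => exact ⟨0, mem_insert _ _, ReflTransGen.refl⟩
  | @tail a b _ hr ih =>
    obtain ⟨t, ht, hta⟩ := ih
    by_cases ho : Opn η a b
    · exact ⟨t, ht, hta.tail ho⟩
    · simp only [Opn, hr.1, true_and, not_forall] at ho
      obtain ⟨i, hi, hη⟩ := ho
      have h1 := hr.2 i hi
      have hiF : i ∈ F := by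
        by_contra hn
        simp only [η', hn, if_false] at h1
        exact hη h1
      exact ⟨b, Or.inr (mem_iUnion₂.2 ⟨i, hiF, a, hi⟩), ReflTransGen.refl⟩

lemma half_blocked {η : Idx → Bool} {v u : V} {k : ℕ} (hk : k ≠ 0) (hu : u.2 ≤ 0)
    (huv : d1 u v ≤ LL k) (hη : η (u, (u.1, u.2 - 1), k) = false) :
    {w | ReflTransGen (fun a b => Opn η a b ∧ 0 ≤ b.2) v w}.Finite := by
  refine (finite_box u (LL k)).subset (fun w hw => ?_)
  have := (rtg_inv (r' := fun _ _ => True) (I := fun a => d1 u a ≤ LL k) (by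
    rintro a b ha ⟨ho, hb⟩
    refine ⟨trivial, ?_⟩
    by_contra hn
    have h1 := ho.1
    have := ho.2 (u, (u.1, u.2 - 1), k) ⟨by simp [adj], Or.inr ⟨hk, Or.inl ⟨h1, by
      simp only [d1, adj] at *; omega⟩⟩⟩
    simp [hη] at this) huv hw).2
  simp only [d1, linf, mem_ofPred_eq] at *
  omega

lemma d1_map_le (φ : V → V) (hφ : ∀ a b, adj a b → adj (φ a) (φ b)) (a b : V) :
    d1 (φ a) (φ b) ≤ d1 a b := by
  have key : ∀ n : ℕ, ∀ b, d1 a b = n → d1 (φ a) (φ b) ≤ n := by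
    intro n
    induction n with
    | zero =>
      intro b hb
      have : a = b := by ext <;> simp only [d1] at hb <;> omega
      subst this; simp [d1]
    | succ n ih =>
      intro b hb
      obtain ⟨c, h1, h2⟩ : ∃ c, adj c b ∧ d1 a c = n := by
        simp only [d1] at hb
        by_cases g1 : a.1 < b.1
        · exact ⟨(b.1 - 1, b.2), by simp [adj], by simp only [d1]; omega⟩
        by_cases g2 : b.1 < a.1
        · exact ⟨(b.1 + 1, b.2), by simp [adj], by simp only [d1]; omega⟩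
        by_cases g3 : a.2 < b.2
        · exact ⟨(b.1, b.2 - 1), by simp [adj], by simp only [d1]; omega⟩
        · exact ⟨(b.1, b.2 + 1), by simp [adj], by simp only [d1]; omega⟩
      have h3 := ih c h2
      have h4 := hφ c b h1
      simp only [d1, adj] at *
      omega
  have h0 : 0 ≤ d1 a b := by simp only [d1]; omega
  have := key (d1 a b).toNat b (by omega)
  omega

lemma cov_map (φ : V ≃ V) (hφ : ∀ a b, adj (φ a) (φ b) ↔ adj a b) (i : Idx) (a b : V) :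
    cov (φ i.1, φ i.2.1, i.2.2) (φ a) (φ b) ↔ cov i a b := by
  have hd : ∀ a b, d1 (φ a) (φ b) = d1 a b := by
    intro a b
    refine le_antisymm (d1_map_le φ (fun a b h => (hφ a b).2 h) a b) ?_
    have := d1_map_le φ.symm (fun a b h => by rw [← hφ]; simpa using h) (φ a) (φ b)
    simpa using this
  simp only [cov, LamS, Lam, hφ, hd, φ.injective.eq_iff]

end Pool.Agent.MP_77ae5d_pr.H74
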