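import Mathlib

/-! Product measures on `ι → Bool`: independence, Harris inequality, quasi-invariance. -/

namespace Pool.Agent.MP_77ae5d_pr.H74

open MeasureTheory Set Filter Topology
open scoped ENNReal

variable {ι : Type*}

/-- `A` depends only on the coordinates in `S`. -/
def Dep (A : Set (ι → Bool)) (S : Set ι) : Prop :=
  ∀ η ζ : ι → Bool, (∀ i ∈ S, η i = ζ i) → η ∈ A → ζ ∈ A

lemma Dep.mono {A : Set (ι → Bool)} {S T : Set ι} (h : Dep A S) (hST : S ⊆ T) : Dep A T :=
  fun η ζ hh => h η ζ (fun i hi => hh i (hST hi))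

lemma Dep.measurableSet {A : Set (ι → Bool)} {S : Set ι} (h : Dep A S) (hS : S.Finite) :
    MeasurableSet A := by
  classical
  have : Finite S := hS
  have : A = (fun (η : ι → Bool) (i : S) => η i) ⁻¹'
      ((fun (η : ι → Bool) (i : S) => η i) '' A) := by
    ext η
    constructor
    · intro hη; exact ⟨η, hη, rfl⟩
    · rintro ⟨ζ, hζ, he⟩
      exact h ζ η (fun i hi => congrFun he ⟨i, hi⟩) hζ
  rw [this]
  exact (Set.toFinite _).measurableSet.preimage (by fun_prop)

variable (ν : ι → Measure Bool) [∀ i, IsProbabilityMeasure (ν i)]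

lemma map_piecewise (S : Set ι) [DecidablePred (· ∈ S)] :
    ((Measure.infinitePi ν).prod (Measure.infinitePi ν)).map
      (fun p : (ι → Bool) × (ι → Bool) => S.piecewise p.1 p.2) = Measure.infinitePi ν := by
  classical
  have hm : Measurable (fun p : (ι → Bool) × (ι → Bool) => S.piecewise p.1 p.2) := by
    refine measurable_pi_lambda _ (fun i => ?_)
    by_cases hi : i ∈ S
    · simp only [Set.piecewise, hi, if_true]; fun_prop
    · simp only [Set.piecewise, hi, if_false]; fun_prop
  apply Measure.eq_infinitePi
  intro s t ht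
  rw [Measure.map_apply hm (MeasurableSet.pi s.countable_toSet (fun i _ => ht i))]
  have : (fun p : (ι → Bool) × (ι → Bool) => S.piecewise p.1 p.2) ⁻¹' (Set.pi (↑s) t)
      = (Set.pi (↑(s.filter (· ∈ S))) t) ×ˢ (Set.pi (↑(s.filter (· ∉ S))) t) := by
    ext p
    simp only [mem_preimage, Set.mem_pi, Finset.mem_coe, Set.mem_prod, Finset.mem_filter]
    constructor
    · intro h
      refine ⟨fun i hi => ?_, fun i hi => ?_⟩
      · have := h i hi.1; simpa [Set.piecewise, hi.2] using this
      · have := h i hi.1; simpa [Set.piecewise, hi.2] using this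
    · rintro ⟨h1, h2⟩ i hi
      by_cases hS : i ∈ S
      · simpa [Set.piecewise, hS] using h1 i ⟨hi, hS⟩
      · simpa [Set.piecewise, hS] using h2 i ⟨hi, hS⟩
  rw [this, Measure.prod_prod, Measure.infinitePi_pi _ (fun i _ => ht i),
    Measure.infinitePi_pi _ (fun i _ => ht i), Finset.prod_filter_mul_prod_filter_not]

lemma indep_of_dep {A B : Set (ι → Bool)} {S T : Set ι} (hA : MeasurableSet A)
    (hB : MeasurableSet B) (dA : Dep A S) (dB : Dep B T) (hST : Disjoint S T) :
    Measure.infinitePi ν (A ∩ B) = Measure.infinitePi ν A * Measure.infinitePi ν B := by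
  classical
  have hm : Measurable (fun p : (ι → Bool) × (ι → Bool) => S.piecewise p.1 p.2) := by
    refine measurable_pi_lambda _ (fun i => ?_)
    by_cases hi : i ∈ S
    · simp only [Set.piecewise, hi, if_true]; fun_prop
    · simp only [Set.piecewise, hi, if_false]; fun_prop
  conv_lhs => rw [← map_piecewise ν S]
  rw [Measure.map_apply hm (hA.inter hB), ← Measure.prod_prod]
  congr 1
  ext p
  simp only [mem_preimage, mem_inter_iff, Set.mem_prod]
  have h1 : ∀ i ∈ S, S.piecewise p.1 p.2 i = p.1 i := fun i hi => by simp [Set.piecewise, hi]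
  have h2 : ∀ i ∈ T, S.piecewise p.1 p.2 i = p.2 i := fun i hi => by
    have : i ∉ S := fun h => Set.disjoint_left.1 hST h hi
    simp [Set.piecewise, this]
  exact ⟨fun h => ⟨dA _ _ h1 h.1, dB _ _ h2 h.2⟩,
    fun h => ⟨dA _ _ (fun i hi => (h1 i hi).symm) h.1, dB _ _ (fun i hi => (h2 i hi).symm) h.2⟩⟩

lemma measure_coord (i : ι) (b : Bool) :
    Measure.infinitePi ν {η | η i = b} = ν i {b} := by
  have := (measurePreserving_eval_infinitePi ν i).measure_preimage
    (s := {b}) (measurableSet_singleton b).nullMeasurableSet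
  simpa [Set.preimage, Function.eval] using this

lemma measurableSet_coord (i : ι) (b : Bool) : MeasurableSet {η : ι → Bool | η i = b} :=
  (measurableSet_singleton b).preimage (measurable_pi_apply i)

lemma measure_inter_coord [DecidableEq ι] {A : Set (ι → Bool)} (hA : MeasurableSet A) (i : ι)
    (b : Bool) : Measure.infinitePi ν (A ∩ {η | η i = b}) =
      ν i {b} * Measure.infinitePi ν ((fun η => Function.update η i b) ⁻¹' A) := by
  have e : A ∩ {η | η i = b} = {η | η i = b} ∩ ((fun η => Function.update η i b) ⁻¹' A) := by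
    ext η
    simp only [mem_inter_iff, mem_ofPred_eq, mem_preimage]
    constructor
    · rintro ⟨h1, h2⟩; refine ⟨h2, ?_⟩; rw [← h2, Function.update_eq_self]; exact h1
    · rintro ⟨h2, h1⟩; refine ⟨?_, h2⟩; rw [← h2, Function.update_eq_self] at h1; exact h1
  rw [e, indep_of_dep ν (S := {i}) (T := {i}ᶜ) (measurableSet_coord i b)
    (hA.preimage (measurable_update_left)) _ _ disjoint_compl_right, measure_coord]
  · intro η ζ h hη
    simp only [mem_ofPred_eq] at hη ⊢
    rw [← h i rfl]; exact hη
  · intro η ζ h hη
    simp only [mem_preimage] at hη ⊢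
    convert hη using 1
    funext j
    by_cases hj : j = i
    · subst hj; simp
    · simp [Function.update_of_ne hj, h j hj]

lemma measure_split [DecidableEq ι] {A : Set (ι → Bool)} (hA : MeasurableSet A) (i : ι) :
    (Measure.infinitePi ν).real A =
      (ν i).real {true} * (Measure.infinitePi ν).real ((fun η => Function.update η i true) ⁻¹' A)
      + (ν i).real {false} *
        (Measure.infinitePi ν).real ((fun η => Function.update η i false) ⁻¹' A) := by
  rw [← measureReal_inter_add_sdiff (s := A) (measurableSet_coord i true)]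
  have e : A \ {η | η i = true} = A ∩ {η | η i = false} := by
    ext η; simp
  rw [e]
  simp only [measureReal_def, measure_inter_coord ν hA, ENNReal.toReal_mul]

lemma harris_finite (F : Finset ι) : ∀ A B : Set (ι → Bool), IsUpperSet A → IsUpperSet B →
    Dep A F → Dep B F →
    (Measure.infinitePi ν).real A * (Measure.infinitePi ν).real B
      ≤ (Measure.infinitePi ν).real (A ∩ B) := by
  classical
  induction F using Finset.induction_on with
  | empty =>
    intro A B _ _ dA _
    rcases A.eq_empty_or_nonempty with rfl | ⟨η, hη⟩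
    · simp
    · have : A = univ := eq_univ_of_forall fun ζ => dA η ζ (by simp) hη
      subst this; simp
  | insert i F hi ih =>
    intro A B uA uB dA dB
    have mA := dA.measurableSet (Finset.finite_toSet _)
    have mB := dB.measurableSet (Finset.finite_toSet _)
    have up : ∀ (C : Set (ι → Bool)) (b : Bool), IsUpperSet C →
        IsUpperSet ((fun η => Function.update η i b) ⁻¹' C) := by
      intro C b hC η ζ hle hη
      exact hC (update_le_update_iff.2 ⟨le_rfl, fun j _ => hle j⟩) hη
    have dp : ∀ (C : Set (ι → Bool)) (b : Bool), Dep C (↑(insert i F)) →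
        Dep ((fun η => Function.update η i b) ⁻¹' C) F := by
      intro C b hC η ζ h hη
      refine hC _ _ (fun j hj => ?_) hη
      by_cases hji : j = i
      · subst hji; simp
      · simp only [Function.update_of_ne hji]
        apply h
        simpa [hji] using hj
    have mono : ∀ (C : Set (ι → Bool)), IsUpperSet C →
        (Measure.infinitePi ν).real ((fun η => Function.update η i false) ⁻¹' C) ≤
        (Measure.infinitePi ν).real ((fun η => Function.update η i true) ⁻¹' C) := by
      intro C hC
      apply measureReal_mono _ (measure_ne_top _ _)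
      intro η hη
      exact hC (update_le_update_iff.2 ⟨by simp, fun j _ => le_rfl⟩) hη
    have h1 := ih _ _ (up A true uA) (up B true uB) (dp A true dA) (dp B true dB)
    have h0 := ih _ _ (up A false uA) (up B false uB) (dp A false dA) (dp B false dB)
    rw [measure_split ν mA i, measure_split ν mB i, measure_split ν (mA.inter mB) i,
      preimage_inter, preimage_inter]
    have hp : (ν i).real {true} + (ν i).real {false} = 1 := by
      rw [← measureReal_union (by simp) (measurableSet_singleton _)]
      have : ({true} ∪ {false} : Set Bool) = univ := by ext b; cases b <;> simp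
      rw [this]; exact probReal_univ
    have p1 : 0 ≤ (ν i).real {true} := measureReal_nonneg
    have p0 : 0 ≤ (ν i).real {false} := measureReal_nonneg
    have a := mono A uA
    have b := mono B uB
    set p := (ν i).real {true}
    set q := (ν i).real {false}
    set a1 := (Measure.infinitePi ν).real ((fun η => Function.update η i true) ⁻¹' A)
    set a0 := (Measure.infinitePi ν).real ((fun η => Function.update η i false) ⁻¹' A)
    set b1 := (Measure.infinitePi ν).real ((fun η => Function.update η i true) ⁻¹' B)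
    set b0 := (Measure.infinitePi ν).real ((fun η => Function.update η i false) ⁻¹' B)
    have key : (p * a1 + q * a0) * (p * b1 + q * b0) ≤ p * (a1 * b1) + q * (a0 * b0) := by
      have hq : q = 1 - p := by linarith
      have : 0 ≤ p * q * ((a1 - a0) * (b1 - b0)) :=
        mul_nonneg (mul_nonneg p1 p0) (mul_nonneg (by linarith) (by linarith))
      rw [hq] at this ⊢
      nlinarith
    calc _ ≤ p * (a1 * b1) + q * (a0 * b0) := key
      _ ≤ _ := add_le_add (mul_le_mul_of_nonneg_left h1 p1) (mul_le_mul_of_nonneg_left h0 p0)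

/-- Outer approximation of a compact set by events depending on finitely many coordinates. -/
lemma iInter_approx_subset (K : Set (ι → Bool)) (hK : IsCompact K) (F : ℕ → Finset ι)
    (hF : Monotone F) (hall : ∀ i, ∃ n, i ∈ F n) (r : Bool → Bool → Prop) (η : ι → Bool)
    (h : ∀ n, ∃ ζ ∈ K, ∀ i ∈ F n, r (ζ i) (η i)) : ∃ ζ ∈ K, ∀ i, r (ζ i) (η i) := by
  let T : ℕ → Set (ι → Bool) := fun n => K ∩ {ζ | ∀ i ∈ F n, r (ζ i) (η i)}
  have hcl : ∀ n, IsClosed {ζ : ι → Bool | ∀ i ∈ F n, r (ζ i) (η i)} := by
    intro n
    have : {ζ : ι → Bool | ∀ i ∈ F n, r (ζ i) (η i)}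
        = ⋂ i ∈ F n, (fun ζ : ι → Bool => ζ i) ⁻¹' {b | r b (η i)} := by
      ext; simp
    rw [this]
    exact isClosed_biInter fun i _ => (isClosed_discrete _).preimage (continuous_apply i)
  have := IsCompact.nonempty_iInter_of_sequence_nonempty_isCompact_isClosed T
    (fun n ζ hζ => ⟨hζ.1, fun i hi => hζ.2 i (hF (Nat.le_succ n) hi)⟩)
    (fun n => by obtain ⟨ζ, h1, h2⟩ := h n; exact ⟨ζ, h1, h2⟩)
    (hK.inter_right (hcl 0)) (fun n => hK.isClosed.inter (hcl n))
  obtain ⟨ζ, hζ⟩ := this
  rw [mem_iInter] at hζ
  refine ⟨ζ, (hζ 0).1, fun i => ?_⟩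
  obtain ⟨n, hn⟩ := hall i
  exact (hζ n).2 i hn

lemma exists_exhaustion [Countable ι] :
    ∃ F : ℕ → Finset ι, Monotone F ∧ ∀ i, ∃ n, i ∈ F n := by
  classical
  obtain ⟨f, hf⟩ := Countable.exists_injective_nat ι
  refine ⟨fun n => (Finset.range n).preimage f hf.injOn, fun m n hmn i hi => ?_,
    fun i => ⟨f i + 1, by simp⟩⟩
  simp only [Finset.mem_preimage, Finset.mem_range] at hi ⊢
  omega

lemma le_of_forall_compact [Countable ι] {A B : Set (ι → Bool)} (hA : MeasurableSet A)
    (hB : MeasurableSet B) (c : ℝ)
    (h : ∀ K K' : Set (ι → Bool), K ⊆ A → K' ⊆ B → IsCompact K → IsCompact K' →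
      (Measure.infinitePi ν).real K * (Measure.infinitePi ν).real K' ≤ c) :
    (Measure.infinitePi ν).real A * (Measure.infinitePi ν).real B ≤ c := by
  apply le_of_forall_pos_le_add
  intro ε hε
  have hε' : ENNReal.ofReal (ε / 2) ≠ 0 := by simpa using hε
  obtain ⟨K, hKA, hK, h1⟩ := hA.exists_isCompact_lt_add
    (μ := Measure.infinitePi ν) (measure_ne_top _ _) hε'
  obtain ⟨K', hKB, hK', h2⟩ := hB.exists_isCompact_lt_add
    (μ := Measure.infinitePi ν) (measure_ne_top _ _) hε'
  have conv : ∀ C D : Set (ι → Bool),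
      Measure.infinitePi ν C < Measure.infinitePi ν D + ENNReal.ofReal (ε / 2) →
      (Measure.infinitePi ν).real C ≤ (Measure.infinitePi ν).real D + ε / 2 := by
    intro C D hCD
    have := ENNReal.toReal_mono (by finiteness) hCD.le
    rwa [ENNReal.toReal_add (by finiteness) (by finiteness),
      ENNReal.toReal_ofReal (by positivity)] at this
  have a := conv _ _ h1
  have b := conv _ _ h2
  have c1 := h K K' hKA hKB hK hK'
  have a1 : (Measure.infinitePi ν).real A ≤ 1 := measureReal_le_one
  have a2 : (Measure.infinitePi ν).real K' ≤ 1 := measureReal_le_one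
  have a3 : 0 ≤ (Measure.infinitePi ν).real K' := measureReal_nonneg
  have a4 : 0 ≤ (Measure.infinitePi ν).real A := measureReal_nonneg
  nlinarith

/-- Harris inequality. -/
theorem harris [Countable ι] {A B : Set (ι → Bool)} (hA : MeasurableSet A)
    (hB : MeasurableSet B) (uA : IsUpperSet A) (uB : IsUpperSet B) :
    Measure.infinitePi ν A * Measure.infinitePi ν B ≤ Measure.infinitePi ν (A ∩ B) := by
  obtain ⟨F, hF, hall⟩ := exists_exhaustion (ι := ι)
  have key : (Measure.infinitePi ν).real A * (Measure.infinitePi ν).real B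
      ≤ (Measure.infinitePi ν).real (A ∩ B) := by
    apply le_of_forall_compact ν hA hB
    intro K K' hKA hKB hK hK'
    let ap : Set (ι → Bool) → ℕ → Set (ι → Bool) :=
      fun C n => {η | ∃ ζ ∈ C, ∀ i ∈ F n, ζ i ≤ η i}
    have dep : ∀ C n, Dep (ap C n) (F n) := by
      rintro C n η ζ h ⟨ξ, h1, h2⟩
      exact ⟨ξ, h1, fun i hi => h i hi ▸ h2 i hi⟩
    have up : ∀ C n, IsUpperSet (ap C n) := by
      rintro C n η ζ h ⟨ξ, h1, h2⟩
      exact ⟨ξ, h1, fun i hi => (h2 i hi).trans (h i)⟩
    have sub : ∀ C n, C ⊆ ap C n := fun C n η h => ⟨η, h, fun _ _ => le_rfl⟩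
    have anti : Antitone (fun n => ap K n ∩ ap K' n) := by
      rintro m n hmn η ⟨⟨ξ, h1, h2⟩, ⟨ξ', h1', h2'⟩⟩
      exact ⟨⟨ξ, h1, fun i hi => h2 i (hF hmn hi)⟩, ⟨ξ', h1', fun i hi => h2' i (hF hmn hi)⟩⟩
    have lim := tendsto_measure_iInter_atTop (μ := Measure.infinitePi ν)
      (fun n => (((dep K n).measurableSet (Finset.finite_toSet _)).inter
        ((dep K' n).measurableSet (Finset.finite_toSet _))).nullMeasurableSet) anti
        ⟨0, measure_ne_top _ _⟩
    have lim' := (ENNReal.tendsto_toReal (measure_ne_top _ _)).comp lim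
    have h1 : (Measure.infinitePi ν).real K * (Measure.infinitePi ν).real K' ≤
        (Measure.infinitePi ν).real (⋂ n, ap K n ∩ ap K' n) := by
      refine ge_of_tendsto' lim' (fun n => ?_)
      refine le_trans ?_ (harris_finite ν (F n) _ _ (up K n) (up K' n) (dep K n) (dep K' n))
      exact mul_le_mul (measureReal_mono (sub K n)) (measureReal_mono (sub K' n))
        measureReal_nonneg measureReal_nonneg
    refine h1.trans (measureReal_mono ?_)
    intro η hη
    rw [mem_iInter] at hη
    obtain ⟨ξ, h1, h2⟩ := iInter_approx_subset K hK F hF hall (· ≤ ·) η (fun n => (hη n).1)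
    obtain ⟨ξ', h1', h2'⟩ := iInter_approx_subset K' hK' F hF hall (· ≤ ·) η (fun n => (hη n).2)
    exact ⟨uA h2 (hKA h1), uB h2' (hKB h1')⟩
  rw [← ENNReal.toReal_le_toReal (by finiteness) (by finiteness), ENNReal.toReal_mul]
  exact key

/-- Overwriting finitely many coordinates preserves null sets (backwards). -/
lemma null_preimage_piecewise (hν : ∀ i b, ν i {b} ≠ 0) (F : Finset ι) (σ : ι → Bool)
    [DecidableEq ι] {N : Set (ι → Bool)} (hN : MeasurableSet N)
    (h0 : Measure.infinitePi ν N = 0) :
    Measure.infinitePi ν ((fun η => F.piecewise σ η) ⁻¹' N) = 0 := by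
  induction F using Finset.induction_on with
  | empty => simpa using h0
  | insert i F hi ih =>
    have hm : Measurable (fun η : ι → Bool => F.piecewise σ η) := by
      refine measurable_pi_lambda _ (fun j => ?_)
      by_cases hj : j ∈ F
      · simp only [Finset.piecewise, hj, if_true]; fun_prop
      · simp only [Finset.piecewise, hj, if_false]; fun_prop
    have e : (fun η => (insert i F).piecewise σ η) ⁻¹' N =
        (fun η => Function.update η i (σ i)) ⁻¹' ((fun η => F.piecewise σ η) ⁻¹' N) := by
      ext η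
      simp only [mem_preimage]
      congr! 1
      funext j
      by_cases hj : j = i
      · subst hj; simp [Finset.piecewise, hi]
      · by_cases hjF : j ∈ F <;> simp [Finset.piecewise, hj, hjF]
    rw [e]
    have := measure_inter_coord ν (hN.preimage hm) i (σ i)
    rw [measure_mono_null inter_subset_left ih] at this
    exact (mul_eq_zero.1 this.symm).resolve_left (hν i _)

lemma map_perm (e : ι ≃ ι) (he : ∀ i, ν (e i) = ν i) :
    (Measure.infinitePi ν).map (fun η i => η (e i)) = Measure.infinitePi ν := by
  classical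
  apply Measure.eq_infinitePi
  intro s t ht
  rw [Measure.map_apply (by fun_prop) (MeasurableSet.pi s.countable_toSet (fun i _ => ht i))]
  have : (fun (η : ι → Bool) i => η (e i)) ⁻¹' (Set.pi (↑s) t)
      = Set.pi (↑(s.map e.toEmbedding)) (fun j => t (e.symm j)) := by
    ext η
    simp only [mem_preimage, Set.mem_pi, Finset.mem_coe, Finset.mem_map_equiv]
    constructor
    · intro h j hj; simpa using h _ hj
    · intro h i hi
      have := h (e i) (by simpa using hi)
      rwa [Equiv.symm_apply_apply] at this
  rw [this, Measure.infinitePi_pi _ (fun i _ => ht _), Finset.prod_map]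
  refine Finset.prod_congr rfl (fun i _ => ?_)
  simp only [Equiv.coe_toEmbedding, he]
  rw [Equiv.symm_apply_apply]

/-- Ergodicity of a permutation of coordinates that moves every finite set off itself. -/
theorem ergodic_perm [Countable ι] (e : ι ≃ ι) (he : ∀ i, ν (e i) = ν i)
    (hmove : ∀ F : Finset ι, ∃ m : ℕ, ∀ i ∈ F, e^[m] i ∉ F) :
    Ergodic (fun (η : ι → Bool) i => η (e i)) (Measure.infinitePi ν) := by
  classical
  have hmp : MeasurePreserving (fun (η : ι → Bool) i => η (e i)) (Measure.infinitePi ν)
      (Measure.infinitePi ν) := ⟨by fun_prop, map_perm ν e he⟩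
  refine ⟨hmp, ⟨fun A hA hinv => ?_⟩⟩
  obtain ⟨F, hF, hall⟩ := exists_exhaustion (ι := ι)
  have hit : ∀ (m : ℕ) (η : ι → Bool),
      (fun (η : ι → Bool) i => η (e i))^[m] η = fun i => η (e^[m] i) := by
    intro m
    induction m with
    | zero => intro η; rfl
    | succ m ih => intro η; rw [Function.iterate_succ_apply', ih]; rfl
  have key : (Measure.infinitePi ν).real A * (Measure.infinitePi ν).real Aᶜ ≤ 0 := by
    apply le_of_forall_compact ν hA hA.compl
    intro K K' hKA hKB hK hK'
    let ap : Set (ι → Bool) → ℕ → Set (ι → Bool) :=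
      fun C n => {η | ∃ ζ ∈ C, ∀ i ∈ F n, ζ i = η i}
    have dep : ∀ C n, Dep (ap C n) (F n) := by
      rintro C n η ζ h ⟨ξ, h1, h2⟩
      exact ⟨ξ, h1, fun i hi => h i hi ▸ h2 i hi⟩
    have sub : ∀ C n, C ⊆ ap C n := fun C n η h => ⟨η, h, fun _ _ => rfl⟩
    have lim : ∀ C, IsCompact C → Tendsto (fun n => (Measure.infinitePi ν).real (ap C n \ C))
        atTop (𝓝 0) := by
      intro C hC
      have anti : Antitone (fun n => ap C n \ C) := by
        rintro m n hmn η ⟨⟨ξ, h1, h2⟩, h3⟩
        exact ⟨⟨ξ, h1, fun i hi => h2 i (hF hmn hi)⟩, h3⟩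
      have lim := tendsto_measure_iInter_atTop (μ := Measure.infinitePi ν)
        (fun n => (((dep C n).measurableSet (Finset.finite_toSet _)).diff
          hC.measurableSet).nullMeasurableSet) anti ⟨0, measure_ne_top _ _⟩
      have e0 : (⋂ n, ap C n \ C) = ∅ := by
        rw [eq_empty_iff_forall_notMem]
        intro η hη
        rw [mem_iInter] at hη
        obtain ⟨ξ, h1, h2⟩ := iInter_approx_subset C hC F hF hall (· = ·) η (fun n => (hη n).1)
        exact (hη 0).2 ((funext h2 : ξ = η) ▸ h1)
      rw [e0, measure_empty] at lim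
      exact (ENNReal.tendsto_toReal ENNReal.zero_ne_top).comp lim
    have lim2 := (lim K hK).add (lim K' hK')
    rw [add_zero] at lim2
    refine ge_of_tendsto' lim2 (fun n => ?_)
    obtain ⟨m, hm⟩ := hmove (F n)
    have hmpm := hmp.iterate m
    set T := (fun (η : ι → Bool) i => η (e i))^[m] with hT
    have mK' := (dep K' n).measurableSet (Finset.finite_toSet _)
    have hind := indep_of_dep ν (S := F n) (T := e^[m] '' (F n))
      ((dep K n).measurableSet (Finset.finite_toSet _)) (mK'.preimage hmpm.measurable)
      (dep K n) (by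
        intro η ζ h hη
        simp only [mem_preimage, hT, hit] at hη ⊢
        exact dep K' n _ _ (fun i hi => h _ ⟨i, hi, rfl⟩) hη)
      (by
        rw [Set.disjoint_right]
        rintro _ ⟨i, hi, rfl⟩
        exact hm i hi)
    rw [hmpm.measure_preimage mK'.nullMeasurableSet] at hind
    have hsub : ap K n ∩ T ⁻¹' ap K' n ⊆ (ap K n \ K) ∪ T ⁻¹' (ap K' n \ K') := by
      rintro η ⟨h1, h2⟩
      by_cases hk : η ∈ K
      · right
        refine ⟨h2, fun hk' => hKB hk' ?_⟩
        have : T ⁻¹' A = A := by rw [hT]; exact Function.IsFixedPt.preimage_iterate hinv m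
        rw [← this] at hKA
        exact hKA hk
      · exact Or.inl ⟨h1, hk⟩
    calc (Measure.infinitePi ν).real K * (Measure.infinitePi ν).real K'
        ≤ (Measure.infinitePi ν).real (ap K n) * (Measure.infinitePi ν).real (ap K' n) :=
          mul_le_mul (measureReal_mono (sub K n)) (measureReal_mono (sub K' n))
            measureReal_nonneg measureReal_nonneg
      _ = (Measure.infinitePi ν).real (ap K n ∩ T ⁻¹' ap K' n) := by
          simp only [measureReal_def, hind, ENNReal.toReal_mul]
      _ ≤ (Measure.infinitePi ν).real (ap K n \ K)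
            + (Measure.infinitePi ν).real (T ⁻¹' (ap K' n \ K')) :=
          (measureReal_mono hsub).trans (measureReal_union_le _ _)
      _ = _ := by
          rw [hmpm.measureReal_preimage (mK'.diff hK'.measurableSet).nullMeasurableSet]
  rw [eventuallyConst_set']
  have a3 : 0 ≤ (Measure.infinitePi ν).real A := measureReal_nonneg
  have a4 : 0 ≤ (Measure.infinitePi ν).real Aᶜ := measureReal_nonneg
  rcases mul_eq_zero.1 (le_antisymm key (mul_nonneg a3 a4)) with h | h
  · left
    rw [ae_eq_empty]
    exact (measureReal_eq_zero_iff (measure_ne_top _ _)).1 h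
  · right
    rw [ae_eq_univ]
    exact (measureReal_eq_zero_iff (measure_ne_top _ _)).1 h

end Pool.Agent.MP_77ae5d_pr.H74
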