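import Pool.Agent.MP_77ae5d_pr.H74.Model
import Pool.Agent.MP_77ae5d_pr.H74.Prod

/-! The obstacle model: probability estimates. -/

namespace Pool.Agent.MP_77ae5d_pr.H74

open Relation Set MeasureTheory Filter Topology
open scoped ENNReal

noncomputable def qq (k : ℕ) : ℝ := 1 / (10 ^ 14 * ((k : ℝ) + 1) * (LL k : ℝ) ^ 2)

lemma LL_real (k : ℕ) : (1 : ℝ) ≤ (LL k : ℝ) := by exact_mod_cast LL_pos k

lemma qq_pos (k : ℕ) : 0 < qq k := by
  have := LL_real k
  unfold qq; positivity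

lemma qq_lt (k : ℕ) : qq k < 1 := by
  have h := LL_real k
  have h1 : (1 : ℝ) ≤ (LL k : ℝ) ^ 2 := one_le_pow₀ h
  have h2 : (0 : ℝ) ≤ k := Nat.cast_nonneg k
  unfold qq
  rw [div_lt_one (by positivity)]
  nlinarith

noncomputable def nu (i : Idx) : Measure Bool :=
  ProbabilityTheory.bernoulliMeasure false true ⟨qq i.2.2, (qq_pos _).le, (qq_lt _).le⟩

instance (i : Idx) : IsProbabilityMeasure (nu i) := by unfold nu; infer_instance

lemma nu_false (i : Idx) : (nu i).real {false} = qq i.2.2 := by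
  unfold nu
  rw [ProbabilityTheory.bernoulliMeasure_real_apply_of_mem_of_notMem _ (measurableSet_singleton _)
    rfl (by simp)]

lemma nu_true (i : Idx) : (nu i).real {true} = 1 - qq i.2.2 := by
  unfold nu
  rw [ProbabilityTheory.bernoulliMeasure_real_apply_of_notMem_of_mem _ (measurableSet_singleton _)
    (by simp) rfl]

lemma nu_ne (i : Idx) (b : Bool) : nu i {b} ≠ 0 := by
  rw [← measureReal_ne_zero_iff (measure_ne_top _ _)]
  have := qq_pos i.2.2
  have := qq_lt i.2.2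
  cases b
  · rw [nu_false]; positivity
  · rw [nu_true]; linarith

noncomputable def PP : Measure (Idx → Bool) := Measure.infinitePi nu

instance : IsProbabilityMeasure PP := by unfold PP; infer_instance

lemma P_coord (i : Idx) : PP.real {η | η i = false} = qq i.2.2 := by
  rw [← nu_false, measureReal_def, measureReal_def, PP, measure_coord]

lemma P_exists (F : Finset Idx) :
    PP.real {η | ∃ i ∈ F, η i = false} ≤ ∑ i ∈ F, qq i.2.2 := by
  have : {η : Idx → Bool | ∃ i ∈ F, η i = false} = ⋃ i ∈ F, {η | η i = false} := by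
    ext; simp
  rw [this]
  refine (measureReal_biUnion_finset_le _ _).trans (le_of_eq ?_)
  simp [P_coord]

lemma P_indep {A B : Set (Idx → Bool)} {S T : Set Idx} (dA : Dep A S) (dB : Dep B T)
    (hS : S.Finite) (hT : T.Finite) (hST : Disjoint S T) :
    PP.real (A ∩ B) = PP.real A * PP.real B := by
  simp only [measureReal_def, PP, indep_of_dep nu (dA.measurableSet hS) (dB.measurableSet hT)
    dA dB hST, ENNReal.toReal_mul]

lemma P_two (A B : Finset Idx) :
    PP.real {η | ∃ i ∈ A, ∃ j ∈ B, i ≠ j ∧ η i = false ∧ η j = false}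
      ≤ (∑ i ∈ A, qq i.2.2) * ∑ i ∈ B, qq i.2.2 := by
  have : {η : Idx → Bool | ∃ i ∈ A, ∃ j ∈ B, i ≠ j ∧ η i = false ∧ η j = false}
      = ⋃ p ∈ A ×ˢ B, {η | p.1 ≠ p.2 ∧ η p.1 = false ∧ η p.2 = false} := by
    ext η
    simp only [mem_ofPred_eq, mem_iUnion, Finset.mem_product]
    exact ⟨fun ⟨i, hi, j, hj, h⟩ => ⟨(i, j), ⟨hi, hj⟩, h⟩, fun ⟨p, h1, h⟩ => ⟨_, h1.1, _, h1.2, h⟩⟩
  rw [this, Finset.sum_mul_sum, ← Finset.sum_product']
  refine (measureReal_biUnion_finset_le _ _).trans (Finset.sum_le_sum fun p _ => ?_)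
  by_cases hp : p.1 = p.2
  · simp only [hp, ne_eq, not_true, false_and, ofPred_false, measureReal_empty]
    exact mul_self_nonneg _
  · have e : {η : Idx → Bool | p.1 ≠ p.2 ∧ η p.1 = false ∧ η p.2 = false}
        = {η | η p.1 = false} ∩ {η | η p.2 = false} := by ext; simp [hp]
    rw [e, P_indep (S := {p.1}) (T := {p.2}) _ _ (finite_singleton _) (finite_singleton _)
      (by simpa using hp), P_coord, P_coord]
    · intro η ζ h hη; rw [mem_ofPred_eq, ← h _ rfl]; exact hη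
    · intro η ζ h hη; rw [mem_ofPred_eq, ← h _ rfl]; exact hη

def FF (U : Finset V) (k : ℕ) : Finset Idx :=
  (U ×ˢ ({(1, 0), (-1, 0), (0, 1), (0, -1)} : Finset V)).image (fun p => (p.1, p.1 + p.2, k))

lemma mem_FF {U : Finset V} {i : Idx} (h1 : i.1 ∈ U) (h2 : adj i.1 i.2.1) : i ∈ FF U i.2.2 := by
  obtain ⟨u, v, k⟩ := i
  refine Finset.mem_image.2 ⟨(u, v - u), Finset.mem_product.2 ⟨h1, ?_⟩, by simp⟩
  simp only [adj, Finset.mem_insert, Finset.mem_singleton, Prod.ext_iff, Prod.fst_sub,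
    Prod.snd_sub] at h2 ⊢
  omega

lemma sum_FF (U : Finset V) (k : ℕ) : ∑ i ∈ FF U k, qq i.2.2 ≤ 4 * U.card * qq k := by
  have h1 : ∑ i ∈ FF U k, qq i.2.2 = (FF U k).card * qq k := by
    rw [Finset.sum_congr rfl (g := fun _ => qq k), Finset.sum_const, nsmul_eq_mul]
    intro i hi
    obtain ⟨p, -, rfl⟩ := Finset.mem_image.1 hi
    rfl
  have h2 : (FF U k).card ≤ U.card * 4 := by
    refine Finset.card_image_le.trans ?_
    rw [Finset.card_product]
    exact Nat.mul_le_mul_left _ Finset.card_le_four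
  rw [h1]
  have h3 : ((FF U k).card : ℝ) ≤ 4 * U.card := by exact_mod_cast (by omega)
  exact mul_le_mul_of_nonneg_right h3 (qq_pos k).le

lemma card_Icc_real (a r : ℤ) (hr : 0 ≤ r) :
    ((Finset.Icc (a - r) (a + r)).card : ℝ) = 2 * r + 1 := by
  have : ((Finset.Icc (a - r) (a + r)).card : ℤ) = 2 * r + 1 := by
    rw [Int.card_Icc]; omega
  exact_mod_cast this

lemma dep_XX (k : ℕ) (z : V) : Dep (XX k z) (JJ k z) := by
  rintro η ζ h ⟨p, q, h1, h2, h3⟩
  refine ⟨p, q, h1, h2, h3.mono ?_⟩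
  rintro a ⟨i, hi, g1, g2⟩
  exact ⟨i, hi, h i hi ▸ g1, g2⟩

lemma P_YY {k : ℕ} {a : ℝ} (ha : ∀ z, PP.real (XX k z) ≤ a) (z : V) (M : ℤ) (hM : 0 ≤ M) :
    PP.real (YY k z M) ≤ (2 * M + 1) ^ 4 * a ^ 2 := by
  set G := Finset.Icc (-M) M ×ˢ Finset.Icc (-M) M with hG
  have hsub : YY k z M ⊆ ⋃ p ∈ G ×ˢ G, {η | 6 * LL k < linf (ctr k z p.1) (ctr k z p.2) ∧
      η ∈ XX k (ctr k z p.1) ∧ η ∈ XX k (ctr k z p.2)} := by
    intro η hη
    obtain ⟨m, hm, m', hm', h⟩ := YY_sub hη
    exact mem_iUnion₂.2 ⟨(m, m'), Finset.mem_product.2 ⟨hm, hm'⟩, h⟩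
  have ha0 : 0 ≤ a := measureReal_nonneg.trans (ha 0)
  refine (measureReal_mono hsub (measure_ne_top _ _)).trans
    ((measureReal_biUnion_finset_le _ _).trans ?_)
  refine (Finset.sum_le_card_nsmul _ _ (a ^ 2) (fun p _ => ?_)).trans (le_of_eq ?_)
  · by_cases hp : 6 * LL k < linf (ctr k z p.1) (ctr k z p.2)
    · have e : {η | 6 * LL k < linf (ctr k z p.1) (ctr k z p.2) ∧
          η ∈ XX k (ctr k z p.1) ∧ η ∈ XX k (ctr k z p.2)}
          = XX k (ctr k z p.1) ∩ XX k (ctr k z p.2) := by ext; simp [hp]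
      rw [e, P_indep (dep_XX _ _) (dep_XX _ _) (finite_JJ _ _) (finite_JJ _ _) (disjoint_JJ hp), sq]
      exact mul_le_mul (ha _) (ha _) measureReal_nonneg ha0
    · simp only [hp, false_and, ofPred_false, measureReal_empty]; positivity
  · have := card_Icc_real 0 M hM
    simp only [zero_sub, zero_add] at this
    simp only [hG, Finset.card_product, nsmul_eq_mul, Nat.cast_mul, this]
    ring

lemma P_XX (k : ℕ) : ∀ z, PP.real (XX k z) ≤ 1 / (10 ^ 9 * ((k : ℝ) + 1)) := by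
  induction k with
  | zero => intro z; rw [XX_zero]; simp
  | succ k ih =>
    intro z
    have hL := LL_pos k
    have hL' := LL_real k
    set U := Finset.Icc (z.1 - 30 * LL k) (z.1 + 30 * LL k) ×ˢ
      Finset.Icc (z.2 - 30 * LL k) (z.2 + 30 * LL k) with hU
    have hsub : XX (k + 1) z ⊆ {η | ∃ i ∈ FF U k, η i = false} ∪ YY k z 40 := by
      intro η hη
      rcases XX_succ hη with ⟨i, rfl, h2, h3, h4⟩ | h
      · refine Or.inl ⟨i, mem_FF ?_ h3, h4⟩
        rw [linf_le] at h2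
        simp only [hU, Finset.mem_product, Finset.mem_Icc]
        omega
      · exact Or.inr h
    have h1 := (P_exists _).trans (sum_FF U k)
    have h2 := P_YY ih z 40 (by norm_num)
    have hc : (U.card : ℝ) = (2 * (30 * LL k : ℤ) + 1) ^ 2 := by
      simp only [hU, Finset.card_product, Nat.cast_mul]
      rw [card_Icc_real _ _ (by omega), card_Icc_real _ _ (by omega)]; ring
    rw [hc] at h1
    refine (measureReal_mono hsub).trans ((measureReal_union_le _ _).trans
      ((add_le_add h1 h2).trans ?_))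
    have hk : (0 : ℝ) ≤ k := Nat.cast_nonneg k
    have e1 : 4 * (2 * ((30 * LL k : ℤ) : ℝ) + 1) ^ 2 * qq k ≤ 2 / (10 ^ 10 * ((k : ℝ) + 1)) := by
      unfold qq
      push_cast
      rw [mul_one_div, div_le_div_iff₀ (by positivity) (by positivity)]
      have : (2 * (30 * (LL k : ℝ)) + 1) ^ 2 ≤ (61 * (LL k : ℝ)) ^ 2 :=
        pow_le_pow_left₀ (by positivity) (by linarith) 2
      have h5 : 0 ≤ (LL k : ℝ) ^ 2 * ((k : ℝ) + 1) := by positivity
      nlinarith
    have e2 : (2 * ((40 : ℤ) : ℝ) + 1) ^ 4 * (1 / (10 ^ 9 * ((k : ℝ) + 1))) ^ 2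
        ≤ 2 / (10 ^ 10 * ((k : ℝ) + 1)) := by
      push_cast
      rw [div_pow, mul_div_assoc', div_le_div_iff₀ (by positivity) (by positivity)]
      nlinarith
    refine (add_le_add e1 e2).trans ?_
    push_cast
    rw [← add_div, div_le_div_iff₀ (by positivity) (by positivity)]
    nlinarith

noncomputable def annF (L ρ : ℤ) : Finset V :=
  (Finset.Icc (0 - (L + ρ)) (0 + (L + ρ)) ×ˢ ({1, -1} : Finset ℤ) ×ˢ
    Finset.Icc (0 - ρ) (0 + ρ)).image (fun p => (p.1, p.2.1 * (L - p.1.natAbs) + p.2.2))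

lemma mem_annF {L ρ : ℤ} {u : V} (h1 : L - ρ ≤ d1 u 0) (h2 : d1 u 0 ≤ L + ρ) : u ∈ annF L ρ := by
  simp only [d1, Prod.fst_zero, Prod.snd_zero] at h1 h2
  by_cases hu : 0 ≤ u.2
  · refine Finset.mem_image.2 ⟨(u.1, 1, u.2 - (L - u.1.natAbs)), ?_, by simp⟩
    simp only [Finset.mem_product, Finset.mem_Icc, Finset.mem_insert, true_or, true_and]
    omega
  · refine Finset.mem_image.2 ⟨(u.1, -1, u.2 + (L - u.1.natAbs)), ?_, Prod.ext rfl (by simp only; ring)⟩
    simp only [Finset.mem_product, Finset.mem_Icc, Finset.mem_insert, Finset.mem_singleton,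
      or_true, true_and]
    omega

lemma card_annF {L ρ : ℤ} (hL : 0 ≤ L) (hρ : 0 ≤ ρ) :
    ((annF L ρ).card : ℝ) ≤ (2 * (L + ρ : ℤ) + 1) * (2 * (2 * ρ + 1)) := by
  have h : ((annF L ρ).card : ℝ) ≤ _ := Nat.cast_le.2 Finset.card_image_le
  refine h.trans (le_of_eq ?_)
  simp only [Finset.card_product, Nat.cast_mul]
  rw [card_Icc_real _ _ (by omega), card_Icc_real _ _ hρ]
  norm_num

noncomputable def AA (k m : ℕ) : Finset Idx := FF (annF (LL (k + m)) (4001 * LL k)) (k + m)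

lemma mem_AA {k : ℕ} {i : Idx} (h : i ∈ TT k) : ∃ m, i ∈ AA k m := by
  obtain ⟨h1, a, b, h2, h3⟩ := h
  obtain ⟨m, hm⟩ := Nat.exists_eq_add_of_le h1
  refine ⟨m, ?_⟩
  unfold AA
  rw [← hm]
  have h4 := h2.d1_mem
  have h5 := LL_pos k
  rw [linf_le] at h3
  refine mem_FF (mem_annF ?_ ?_) h2.1 <;>
    simp only [d1, Prod.fst_zero, Prod.snd_zero] at h3 h4 ⊢ <;> omega

lemma sum_AA (k m : ℕ) : ∑ i ∈ AA k m, qq i.2.2 ≤ 1 / ((k : ℝ) + 1) * (1 / 2) ^ m := by
  have h1 := LL_pos k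
  have h2 := LL_pos (k + m)
  have h3 := LL_real k
  have h4 : (LL (k + m) : ℝ) = LL k * 10 ^ m := by simp [LL, pow_add]
  have h5 : (2 : ℝ) ^ m ≤ 10 ^ m := pow_le_pow_left₀ (by norm_num) (by norm_num) m
  have h6 : (1 : ℝ) ≤ 2 ^ m := one_le_pow₀ (by norm_num)
  have hk : (0 : ℝ) ≤ k := Nat.cast_nonneg k
  have hm : (0 : ℝ) ≤ m := Nat.cast_nonneg m
  refine (sum_FF _ _).trans ?_
  have h7 := card_annF (L := LL (k + m)) (ρ := 4001 * LL k) (by omega) (by omega)
  refine (mul_le_mul_of_nonneg_right (mul_le_mul_of_nonneg_left h7 (by norm_num))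
    (qq_pos _).le).trans ?_
  unfold qq
  push_cast
  rw [h4, one_div_pow, mul_one_div, div_mul_div_comm, div_le_div_iff₀ (by positivity)
    (by positivity)]
  set L := (LL k : ℝ)
  set T := (10 : ℝ) ^ m
  set t := (2 : ℝ) ^ m
  have a1 : 2 * (L * T + 4001 * L) + 1 ≤ 8005 * (L * T) := by nlinarith
  have a2 : 2 * (2 * (4001 * L) + 1) ≤ 16006 * L := by linarith
  have a3 : (2 * (L * T + 4001 * L) + 1) * (2 * (2 * (4001 * L) + 1))
      ≤ (8005 * (L * T)) * (16006 * L) := mul_le_mul a1 a2 (by positivity) (by positivity)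
  have a4 : ((k : ℝ) + 1) * t ≤ ((k : ℝ) + m + 1) * T :=
    mul_le_mul (by linarith) h5 (by positivity) (by positivity)
  calc 4 * ((2 * (L * T + 4001 * L) + 1) * (2 * (2 * (4001 * L) + 1))) * (((k : ℝ) + 1) * t)
      ≤ 4 * ((8005 * (L * T)) * (16006 * L)) * (((k : ℝ) + m + 1) * T) :=
        mul_le_mul (by linarith) a4 (by positivity) (by positivity)
    _ = (4 * 8005 * 16006) * (((k : ℝ) + m + 1) * (L * T) ^ 2) := by ring
    _ ≤ 10 ^ 14 * (((k : ℝ) + m + 1) * (L * T) ^ 2) :=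
        mul_le_mul_of_nonneg_right (by norm_num) (by positivity)
    _ = _ := by ring

lemma P_bad (k : ℕ) : PP {η | ¬ Good k η} ≤ ENNReal.ofReal (5 / ((k : ℝ) + 1) ^ 2) := by
  have hk : (0 : ℝ) ≤ k := Nat.cast_nonneg k
  have hsub : {η | ¬ Good k η} ⊆ (⋃ m, ⋃ m', {η | ∃ i ∈ AA k m, ∃ j ∈ AA k m', i ≠ j ∧
      η i = false ∧ η j = false}) ∪ YY k 0 2000 := by
    intro η hη
    by_cases hY : η ∈ YY k 0 2000
    · exact Or.inr hY
    · left
      simp only [Good, hY, not_false_eq_true, and_true, mem_ofPred_eq, not_forall] at hη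
      obtain ⟨i, hi, j, hj, h1, h2, h3⟩ := hη
      obtain ⟨m, hm⟩ := mem_AA hi
      obtain ⟨m', hm'⟩ := mem_AA hj
      exact mem_iUnion.2 ⟨m, mem_iUnion.2 ⟨m', i, hm, j, hm', h3, h1, h2⟩⟩
  let s : ℕ → ℝ := fun m => 1 / ((k : ℝ) + 1) * (1 / 2) ^ m
  have s0 : ∀ m, 0 ≤ s m := fun m => by positivity
  have hs : ∑' m, ENNReal.ofReal (s m) = ENNReal.ofReal (2 / ((k : ℝ) + 1)) := by
    rw [← ENNReal.ofReal_tsum_of_nonneg s0 (summable_geometric_two.mul_left _), tsum_mul_left,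
      tsum_geometric_two]
    congr 1; ring
  have h1 : PP (⋃ m, ⋃ m', {η | ∃ i ∈ AA k m, ∃ j ∈ AA k m', i ≠ j ∧
      η i = false ∧ η j = false}) ≤ ENNReal.ofReal (4 / ((k : ℝ) + 1) ^ 2) := by
    calc _ ≤ ∑' m, ∑' m', ENNReal.ofReal (s m) * ENNReal.ofReal (s m') := by
          refine (measure_iUnion_le _).trans (ENNReal.tsum_le_tsum fun m => ?_)
          refine (measure_iUnion_le _).trans (ENNReal.tsum_le_tsum fun m' => ?_)
          rw [← ENNReal.ofReal_mul (s0 m), ← ofReal_measureReal (measure_ne_top _ _)]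
          refine ENNReal.ofReal_le_ofReal ((P_two _ _).trans ?_)
          exact mul_le_mul (sum_AA k m) (sum_AA k m')
            (Finset.sum_nonneg fun i _ => (qq_pos _).le) (s0 m)
      _ = _ := by
          simp only [ENNReal.tsum_mul_left, ENNReal.tsum_mul_right, hs]
          rw [← ENNReal.ofReal_mul (by positivity)]
          congr 1; field_simp; norm_num
  have h2 : PP (YY k 0 2000) ≤ ENNReal.ofReal (1 / ((k : ℝ) + 1) ^ 2) := by
    rw [← ofReal_measureReal (measure_ne_top _ _)]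
    refine ENNReal.ofReal_le_ofReal ((P_YY (P_XX k) 0 2000 (by norm_num)).trans ?_)
    push_cast
    rw [div_pow, mul_div_assoc', div_le_div_iff₀ (by positivity) (by positivity)]
    have : 0 ≤ ((k : ℝ) + 1) ^ 2 := by positivity
    nlinarith
  refine (measure_mono hsub).trans ((measure_union_le _ _).trans ((add_le_add h1 h2).trans ?_))
  rw [← ENNReal.ofReal_add (by positivity) (by positivity)]
  exact le_of_eq (by congr 1; ring)

theorem ae_good : ∀ᵐ η ∂PP, ∀ᶠ k in atTop, Good k η := by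
  have hsum : Summable (fun k : ℕ => 5 / ((k : ℝ) + 1) ^ 2) := by
    have := (summable_nat_add_iff 1).2 (Real.summable_one_div_nat_pow.2 (by norm_num : 1 < 2))
    simpa [div_eq_mul_inv] using this.mul_left 5
  have : ∑' k, PP {η | ¬ Good k η} ≠ ∞ := by
    refine ne_top_of_le_ne_top ?_ (ENNReal.tsum_le_tsum P_bad)
    rw [← ENNReal.ofReal_tsum_of_nonneg (fun k => by positivity) hsum]
    exact ENNReal.ofReal_ne_top
  simpa using ae_eventually_notMem this

lemma P_all (F : Finset Idx) :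
    PP.real {η | ∀ i ∈ F, η i = true} ≤ Real.exp (-∑ i ∈ F, qq i.2.2) := by
  have e : {η : Idx → Bool | ∀ i ∈ F, η i = true} = Set.pi (↑F) (fun _ => {true}) := by
    ext; simp
  rw [e, measureReal_def, PP, Measure.infinitePi_pi _ (fun _ _ => measurableSet_singleton _),
    ENNReal.toReal_prod, ← Finset.sum_neg_distrib, Real.exp_sum]
  refine Finset.prod_le_prod (fun _ _ => ENNReal.toReal_nonneg) (fun i _ => ?_)
  rw [← measureReal_def, nu_true]
  have := Real.add_one_le_exp (-qq i.2.2)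
  linarith

noncomputable def BB (v : V) (j : ℕ) : Finset Idx :=
  (Finset.Ico 0 (LL j) ×ˢ Finset.Ico 0 (LL j)).image
    (fun p => ((v.1 - p.1, -p.2), (v.1 - p.1, -p.2 - 1), j + 1))

lemma sum_BB (v : V) (j : ℕ) : ∑ i ∈ BB v j, qq i.2.2 = 1 / 10 ^ 16 * (1 / ((j : ℝ) + 2)) := by
  have hL := LL_pos j
  have hL' := LL_real j
  unfold BB
  rw [Finset.sum_image (by
    rintro ⟨a, b⟩ - ⟨c, d⟩ - h
    simp only [Prod.mk.injEq] at h ⊢
    omega)]
  simp only [Finset.sum_const, Finset.card_product, nsmul_eq_mul, Nat.cast_mul]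
  have : ((Finset.Ico 0 (LL j)).card : ℝ) = LL j := by
    have : ((Finset.Ico 0 (LL j)).card : ℤ) = LL j := by rw [Int.card_Ico]; omega
    exact_mod_cast this
  rw [this]
  unfold qq
  rw [LL_succ]
  push_cast
  field_simp
  ring

theorem ae_blocked (v : V) (hv : 0 ≤ v.2) : ∀ᵐ η ∂PP,
    {w | ReflTransGen (fun a b => Opn η a b ∧ 0 ≤ b.2) v w}.Finite := by
  classical
  set j0 := v.2.toNat with hj0
  have hnull : PP.real {η | ∀ m, ∀ i ∈ BB v (j0 + m), η i = true} = 0 := by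
    refine le_antisymm ?_ measureReal_nonneg
    have hdiv : Tendsto (fun n => ∑ m ∈ Finset.range n, 1 / (((j0 + m : ℕ) : ℝ) + 2)) atTop
        atTop := by
      rw [← not_summable_iff_tendsto_nat_atTop_of_nonneg (fun m => by positivity)]
      intro hs
      apply Real.not_summable_one_div_natCast
      rw [← summable_nat_add_iff (j0 + 2)]
      refine hs.congr (fun m => ?_)
      push_cast; ring
    have hlim : Tendsto (fun n => Real.exp (-(1 / 10 ^ 16 *
        ∑ m ∈ Finset.range n, 1 / (((j0 + m : ℕ) : ℝ) + 2)))) atTop (𝓝 0) :=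
      Real.tendsto_exp_neg_atTop_nhds_zero.comp (hdiv.const_mul_atTop (by positivity))
    refine ge_of_tendsto' hlim (fun n => ?_)
    have := P_all ((Finset.range n).biUnion (fun m => BB v (j0 + m)))
    rw [Finset.sum_biUnion (by
      intro a _ b _ hab
      simp only [Function.onFun, Finset.disjoint_left, BB, Finset.mem_image]
      rintro i ⟨p, -, rfl⟩ ⟨q, -, h⟩
      simp only [Prod.mk.injEq] at h
      omega)] at this
    simp only [sum_BB, ← Finset.mul_sum] at this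
    refine (measureReal_mono ?_).trans this
    intro η hη i hi
    obtain ⟨m, -, hm⟩ := Finset.mem_biUnion.1 hi
    exact hη m i hm
  rw [measureReal_eq_zero_iff (measure_ne_top _ _)] at hnull
  filter_upwards [measure_eq_zero_iff_ae_notMem.1 hnull] with η hη
  simp only [mem_ofPred_eq, not_forall] at hη
  obtain ⟨m, i, hi, h⟩ := hη
  obtain ⟨p, hp, rfl⟩ := Finset.mem_image.1 hi
  simp only [Finset.mem_product, Finset.mem_Ico] at hp
  have h1 := lt_LL (j0 + m)
  have h2 := LL_succ (j0 + m)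
  refine half_blocked (u := (v.1 - p.1, -p.2)) (k := j0 + m + 1) (by omega) (by simp; omega) ?_
    (by simpa using h)
  simp only [d1]
  omega

end Pool.Agent.MP_77ae5d_pr.H74
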