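import Mathlib

/-! Deterministic planar geometry on the square lattice. -/

namespace Pool.Agent.MP_77ae5d_pr.H74

open Relation Set

abbrev V := ℤ × ℤ

def adj (a b : V) : Prop :=
  (a.1 = b.1 ∧ (a.2 = b.2 + 1 ∨ b.2 = a.2 + 1)) ∨ (a.2 = b.2 ∧ (a.1 = b.1 + 1 ∨ b.1 = a.1 + 1))

def near (a b : V) : Prop :=
  a.1 ≤ b.1 + 1 ∧ b.1 ≤ a.1 + 1 ∧ a.2 ≤ b.2 + 1 ∧ b.2 ≤ a.2 + 1

def Chain (S : Set V) : V → V → Prop := ReflTransGen (fun a b => a ∈ S ∧ b ∈ S ∧ near a b)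

def d1 (a b : V) : ℤ := ((a.1 - b.1).natAbs : ℤ) + ((a.2 - b.2).natAbs : ℤ)

def linf (a b : V) : ℤ := max ((a.1 - b.1).natAbs : ℤ) ((a.2 - b.2).natAbs : ℤ)

lemma adj.symm {a b : V} (h : adj a b) : adj b a := by unfold adj at *; omega

lemma near.symm {a b : V} (h : near a b) : near b a := by unfold near at *; omega

lemma rtg_lift {α β : Type*} {r : α → α → Prop} {r' : β → β → Prop} (f : α → β)
    (h : ∀ a b, r a b → r' (f a) (f b)) {p q : α} (hpq : ReflTransGen r p q) :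
    ReflTransGen r' (f p) (f q) := by
  induction hpq with
  | refl => exact ReflTransGen.refl
  | tail _ hr ih => exact ih.tail (h _ _ hr)

lemma rtg_mono {α : Type*} {r r' : α → α → Prop}
    (h : ∀ a b, r a b → r' a b) {p q : α} (hpq : ReflTransGen r p q) :
    ReflTransGen r' p q := rtg_lift id h hpq

lemma Chain.mono {S T : Set V} (h : S ⊆ T) {a b : V} (hc : Chain S a b) : Chain T a b :=
  rtg_mono (fun _ _ hh => ⟨h hh.1, h hh.2.1, hh.2.2⟩) hc

lemma Chain.symm {S : Set V} {a b : V} (hc : Chain S a b) : Chain S b a := by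
  induction hc with
  | refl => exact ReflTransGen.refl
  | tail _ h ih => exact ReflTransGen.head ⟨h.2.1, h.1, h.2.2.symm⟩ ih

lemma rtg_inv {α : Type*} {r r' : α → α → Prop} {I : α → Prop}
    (h : ∀ a b, I a → r a b → r' a b ∧ I b) {p q : α} (hp : I p) (hpq : ReflTransGen r p q) :
    ReflTransGen r' p q ∧ I q := by
  induction hpq with
  | refl => exact ⟨ReflTransGen.refl, hp⟩
  | tail _ hr ih => exact ⟨ih.1.tail (h _ _ ih.2 hr).1, (h _ _ ih.2 hr).2⟩

lemma rtg_symm {α : Type*} {r : α → α → Prop} (h : ∀ a b, r a b → r b a) {p q : α}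
    (hpq : ReflTransGen r p q) : ReflTransGen r q p := by
  induction hpq with
  | refl => exact ReflTransGen.refl
  | tail _ hr ih => exact ReflTransGen.head (h _ _ hr) ih

lemma cross {α : Type*} (r : α → α → Prop) (h : α → ℤ)
    (hstep : ∀ a b, r a b → h b ≤ h a + 1) (lo hi : ℤ) (hlh : lo ≤ hi) {p q : α}
    (hpq : ReflTransGen r p q) (hp : h p ≤ lo) (hq : hi ≤ h q) :
    ∃ p' q', ReflTransGen r p p' ∧ h p' = lo ∧ h q' = hi ∧
      ReflTransGen (fun a b => r a b ∧ lo ≤ h a ∧ h a ≤ hi ∧ lo ≤ h b ∧ h b ≤ hi) p' q' := by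
  have key : ∀ q, ReflTransGen r p q → h q < lo ∨
      (∃ p', ReflTransGen r p p' ∧ h p' = lo ∧ lo ≤ h q ∧ h q ≤ hi ∧
        ReflTransGen (fun a b => r a b ∧ lo ≤ h a ∧ h a ≤ hi ∧ lo ≤ h b ∧ h b ≤ hi) p' q) ∨
      (∃ p' q', ReflTransGen r p p' ∧ h p' = lo ∧ h q' = hi ∧
      ReflTransGen (fun a b => r a b ∧ lo ≤ h a ∧ h a ≤ hi ∧ lo ≤ h b ∧ h b ≤ hi) p' q') := by
    intro q hq
    induction hq with
    | refl =>
      rcases hp.lt_or_eq with h1 | h1
      · exact Or.inl h1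
      · exact Or.inr (Or.inl ⟨p, .refl, h1, h1.ge, by omega, .refl⟩)
    | @tail a b hpa hr ih =>
      have hs := hstep a b hr
      rcases ih with h1 | ⟨p', h1, h2, h3, h4, h5⟩ | h1
      · by_cases hb : h b < lo
        · exact Or.inl hb
        · exact Or.inr (Or.inl ⟨b, hpa.tail hr, by omega, by omega, by omega, .refl⟩)
      · by_cases ha : h a = hi
        · exact Or.inr (Or.inr ⟨p', a, h1, h2, ha, h5⟩)
        · by_cases hb : h b < lo
          · exact Or.inl hb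
          · exact Or.inr (Or.inl ⟨p', h1, h2, by omega, by omega,
              h5.tail ⟨hr, h3, h4, by omega, by omega⟩⟩)
      · exact Or.inr (Or.inr h1)
  rcases key q hpq with h1 | ⟨p', h1, h2, h3, h4, h5⟩ | h1
  · omega
  · exact ⟨p', q, h1, h2, by omega, h5⟩
  · exact h1

/-- Parity of the number of marked vertical edges above a point. -/
def par (F : V → V → Prop) (N x : ℤ) : ℕ → Prop
  | 0 => False
  | n + 1 => ¬ (par F N x n ↔ F (x, N - n) (x, N - n + 1))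

lemma prop_sq (Ka Kb Kc Kd Ca Cb Cc Cd P Q : Prop)
    (g1 : Ca → ¬ Cb → Ka) (g2 : Cb → ¬ Ca → Kb) (g3 : Ca → ¬ Cc → Ka) (g4 : Cc → ¬ Ca → Kc)
    (g5 : Cb → ¬ Cd → Kb) (g6 : Cd → ¬ Cb → Kd) (g7 : Cc → ¬ Cd → Kc) (g8 : Cd → ¬ Cc → Kd)
    (k1 : Ka → Ca) (k2 : Kb → Cb) (k3 : Kc → Cc) (k4 : Kd → Cd)
    (ih : ¬ (P ↔ Q) ↔ (Kc ∧ ¬ Cd ∨ Kd ∧ ¬ Cc)) :
    ¬ (¬ (P ↔ (Ka ∧ ¬ Cc ∨ Kc ∧ ¬ Ca)) ↔ ¬ (Q ↔ (Kb ∧ ¬ Cd ∨ Kd ∧ ¬ Cb))) ↔
      (Ka ∧ ¬ Cb ∨ Kb ∧ ¬ Ca) := by
  by_cases Ca <;> by_cases Cb <;> by_cases Cc <;> by_cases Cd <;> by_cases P <;>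
    by_cases Q <;> simp_all

lemma prop_col (Ka Kc Ca Cc : Prop) (g1 : Ca → ¬ Cc → Ka) (g2 : Cc → ¬ Ca → Kc)
    (k1 : Ka → Ca) (k3 : Kc → Cc) : ¬ (Cc ↔ (Ka ∧ ¬ Cc ∨ Kc ∧ ¬ Ca)) ↔ Ca := by
  by_cases Ca <;> by_cases Cc <;> simp_all

lemma strip_core (C U : Set V) (N : ℤ) (hC : ∀ v ∈ C, v.2 ≤ N)
    (hU : ∀ v ∈ U, ((v.1, v.2 + 1) : V) ∈ U) {p q : V} (hp : p ∈ C) (hpU : p ∈ U)
    (hpath : ReflTransGen (fun a b => adj a b ∧ b ∈ C ∧ b ∈ U) p q) (K : V → Prop)
    (hK0 : ∀ v, K v → v.1 ≠ q.1) (hKC : ∀ v, K v → v ∈ C)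
    (hKcl : ∀ k s t, K k → near k s → s ∈ C → s ∈ U → t ∈ U → t ∉ C → adj s t → K s)
    (hKp : ∀ s t, s.1 = p.1 → s ∈ C → s ∈ U → t ∈ U → t ∉ C → adj s t → K s)
    (F : V → V → Prop) (hF : ∀ a b, F a b ↔ (K a ∧ b ∉ C) ∨ (K b ∧ a ∉ C)) : False := by
  have hA : ∀ (x : ℤ) (n : ℕ), ((x, N + 1 - n) : V) ∈ U → ((x + 1, N + 1 - n) : V) ∈ U →
      (¬ (par F N x n ↔ par F N (x + 1) n) ↔ F (x, N + 1 - n) (x + 1, N + 1 - n)) := by
    intro x n
    induction n with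
    | zero =>
      intro _ _
      have h1 : ¬ K (x, N + 1 - (0 : ℕ)) := fun h => by have := hC _ (hKC _ h); simp at this
      have h2 : ¬ K (x + 1, N + 1 - (0 : ℕ)) := fun h => by have := hC _ (hKC _ h); simp at this
      simp only [par, hF, h1, h2, false_and, or_false, not_true]
    | succ n ih =>
      have e1 : N + 1 - ((n + 1 : ℕ) : ℤ) = N - n := by push_cast; ring
      have e2 : N + 1 - (n : ℤ) = N - n + 1 := by ring
      rw [e1]
      rw [e2] at ih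
      intro ha hb
      have hc := hU _ ha
      have hd := hU _ hb
      simp only at hc hd
      have ih' := ih hc hd
      simp only [par]
      set y := N - n
      have cl : (K (x, y) ∨ K (x + 1, y) ∨ K (x, y + 1) ∨ K (x + 1, y + 1)) →
          ∀ s t : V, (s = (x, y) ∨ s = (x + 1, y) ∨ s = (x, y + 1) ∨ s = (x + 1, y + 1)) →
            s ∈ C → s ∈ U → t ∈ U → t ∉ C → adj s t → K s := by
        intro hk s t hs
        rcases hk with hk | hk | hk | hk <;> apply hKcl _ s t hk <;>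
          rcases hs with rfl | rfl | rfl | rfl <;> simp [near] <;> omega
      by_cases hk : (K (x, y) ∨ K (x + 1, y) ∨ K (x, y + 1) ∨ K (x + 1, y + 1))
      · have cl' := cl hk
        have g1 := cl' (x, y) (x + 1, y) (by simp)
        have g2 := cl' (x + 1, y) (x, y) (by simp)
        have g3 := cl' (x, y) (x, y + 1) (by simp)
        have g4 := cl' (x, y + 1) (x, y) (by simp)
        have g5 := cl' (x + 1, y) (x + 1, y + 1) (by simp)
        have g6 := cl' (x + 1, y + 1) (x + 1, y) (by simp)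
        have g7 := cl' (x, y + 1) (x + 1, y + 1) (by simp)
        have g8 := cl' (x + 1, y + 1) (x, y + 1) (by simp)
        have k1 := hKC (x, y)
        have k2 := hKC (x + 1, y)
        have k3 := hKC (x, y + 1)
        have k4 := hKC (x + 1, y + 1)
        simp only [adj, ha, hb, hc, hd, true_and, true_or, or_true, forall_true_left]
          at g1 g2 g3 g4 g5 g6 g7 g8
        simp only [hF] at ih' ⊢
        exact prop_sq _ _ _ _ _ _ _ _ _ _ g1 g2 g3 g4 g5 g6 g7 g8 k1 k2 k3 k4 ih'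
      · simp only [not_or] at hk
        simp only [hF, hk.1, hk.2.1, hk.2.2.1, hk.2.2.2, false_and, or_false, iff_false,
          not_not] at ih' ⊢
        exact ih'
  have hB : ∀ n : ℕ, ((p.1, N + 1 - n) : V) ∈ U →
      (par F N p.1 n ↔ ((p.1, N + 1 - n) : V) ∈ C) := by
    intro n
    induction n with
    | zero =>
      intro _
      simp only [par, false_iff]
      intro h; have := hC _ h; simp at this
    | succ n ih =>
      have e1 : N + 1 - ((n + 1 : ℕ) : ℤ) = N - n := by push_cast; ring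
      have e2 : N + 1 - (n : ℤ) = N - n + 1 := by ring
      rw [e1]
      rw [e2] at ih
      intro ha
      have hc := hU _ ha
      simp only at hc
      have ih' := ih hc
      simp only [par]
      set y := N - n
      have g1 := hKp (p.1, y) (p.1, y + 1) rfl
      have g2 := hKp (p.1, y + 1) (p.1, y) rfl
      have k1 := hKC (p.1, y)
      have k3 := hKC (p.1, y + 1)
      simp only [adj, ha, hc, true_and, true_or, or_true, forall_true_left] at g1 g2
      rw [hF, ih']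
      exact prop_col _ _ _ _ g1 g2 k1 k3
  have hCq : ∀ n : ℕ, ¬ par F N q.1 n := by
    intro n
    induction n with
    | zero => simp [par]
    | succ n ih =>
      have h1 : ¬ K (q.1, N - n) := fun h => hK0 _ h rfl
      have h2 : ¬ K (q.1, N - n + 1) := fun h => hK0 _ h rfl
      simp only [par, hF, h1, h2, false_and, or_false, iff_false, not_not, ih,
        not_false_eq_true]
  have hD : ∀ v, ReflTransGen (fun a b => adj a b ∧ b ∈ C ∧ b ∈ U) p v →
      v ∈ C ∧ v ∈ U ∧ ∃ n : ℕ, v.2 = N + 1 - n ∧ par F N v.1 n := by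
    intro v hv
    induction hv with
    | refl =>
      have := hC p hp
      refine ⟨hp, hpU, (N + 1 - p.2).toNat, by omega, ?_⟩
      have e : N + 1 - ((N + 1 - p.2).toNat : ℤ) = p.2 := by omega
      rw [hB _ (by rw [e]; exact hpU), e]; exact hp
    | @tail a b _ hr ih =>
      obtain ⟨ha, haU, n, hn, hpar⟩ := ih
      obtain ⟨hab, hb, hbU⟩ := hr
      refine ⟨hb, hbU, ?_⟩
      obtain ⟨a1, a2⟩ := a
      obtain ⟨b1, b2⟩ := b
      have hbN := hC _ hb
      have haN := hC _ ha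
      simp only at hn hpar hbN haN ⊢
      have nF1 : ¬ F (a1, a2) (b1, b2) := by simp [hF, ha, hb]
      have nF2 : ¬ F (b1, b2) (a1, a2) := by simp [hF, ha, hb]
      rcases hab with ⟨h1, h2 | h2⟩ | ⟨h1, h2 | h2⟩ <;> simp only at h1 h2
      · subst h1
        refine ⟨n + 1, by push_cast; omega, ?_⟩
        simp only [par]
        have e1 : N - n = b2 := by omega
        have e2 : b2 + 1 = a2 := by omega
        rw [e1, e2]; simp [hpar, nF2]
      · subst h1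
        obtain ⟨m, rfl⟩ : ∃ m, n = m + 1 := ⟨n - 1, by omega⟩
        refine ⟨m, by push_cast at hn; omega, ?_⟩
        simp only [par] at hpar
        have e1 : N - m = a2 := by push_cast at hn; omega
        have e2 : a2 + 1 = b2 := by omega
        rw [e1, e2] at hpar; simpa [nF1] using hpar
      · subst h1 h2
        refine ⟨n, hn, ?_⟩
        have := hA b1 n (hn ▸ hbU) (hn ▸ haU)
        rw [← hn] at this; simpa [hpar, nF2] using this
      · subst h1 h2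
        refine ⟨n, hn, ?_⟩
        have := hA a1 n (hn ▸ haU) (hn ▸ hbU)
        rw [← hn] at this; simpa [hpar, nF1] using this
  obtain ⟨_, _, n, _, h⟩ := hD q hpath
  exact hCq n h

lemma strip_up (C U : Set V) (N : ℤ) (hC : ∀ v ∈ C, v.2 ≤ N)
    (hU : ∀ v ∈ U, ((v.1, v.2 + 1) : V) ∈ U) {p q : V} (hp : p ∈ C) (hpU : p ∈ U)
    (hpath : ReflTransGen (fun a b => adj a b ∧ b ∈ C ∧ b ∈ U) p q) :
    ∃ p' q' : V, p'.1 = p.1 ∧ q'.1 = q.1 ∧
      Chain {v | v ∈ C ∧ v ∈ U ∧ ∃ w ∈ U, w ∉ C ∧ adj v w} p' q' := by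
  set S : Set V := {v | v ∈ C ∧ v ∈ U ∧ ∃ w ∈ U, w ∉ C ∧ adj v w} with hS
  let K : V → Prop := fun v => v ∈ S ∧ ∃ p' : V, p'.1 = p.1 ∧ Chain S p' v
  by_contra hcon
  have hK0 : ∀ v, K v → v.1 ≠ q.1 := fun v ⟨_, p', h1, h2⟩ h => hcon ⟨p', v, h1, h, h2⟩
  have hKC : ∀ v, K v → v ∈ C := fun v h => h.1.1
  have hKcl : ∀ k s t, K k → near k s → s ∈ C → s ∈ U → t ∈ U → t ∉ C → adj s t → K s := by
    rintro k s t ⟨h0, p', h1, h2⟩ hn h3 h4 h5 h6 h7
    have hs : s ∈ S := ⟨h3, h4, t, h5, h6, h7⟩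
    exact ⟨hs, p', h1, ReflTransGen.tail h2 ⟨h0, hs, hn⟩⟩
  have hKp : ∀ s t, s.1 = p.1 → s ∈ C → s ∈ U → t ∈ U → t ∉ C → adj s t → K s := by
    intro s t h1 h3 h4 h5 h6 h7
    exact ⟨⟨h3, h4, t, h5, h6, h7⟩, s, h1, ReflTransGen.refl⟩
  exact strip_core C U N hC hU hp hpU hpath K hK0 hKC hKcl hKp _ (fun _ _ => Iff.rfl)

lemma strip_inv (σ : V → V) (hσ : ∀ v, σ (σ v) = v) (hadj : ∀ a b, adj a b → adj (σ a) (σ b))
    (hnear : ∀ a b, near a b → near (σ a) (σ b))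
    (C U : Set V) (N : ℤ) (hC : ∀ v ∈ C, (σ v).2 ≤ N)
    (hU : ∀ v : V, σ v ∈ U → σ (v.1, v.2 + 1) ∈ U) {p q : V} (hp : p ∈ C) (hpU : p ∈ U)
    (hpath : ReflTransGen (fun a b => adj a b ∧ b ∈ C ∧ b ∈ U) p q) :
    ∃ p' q' : V, (σ p').1 = (σ p).1 ∧ (σ q').1 = (σ q).1 ∧
      Chain {v | v ∈ C ∧ v ∈ U ∧ ∃ w ∈ U, w ∉ C ∧ adj v w} p' q' := by
  obtain ⟨p', q', h1, h2, h3⟩ := strip_up (σ ⁻¹' C) (σ ⁻¹' U) N
    (fun v hv => by simpa [hσ] using hC _ hv) hU (p := σ p) (q := σ q)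
    (by simpa [hσ] using hp) (by simpa [hσ] using hpU)
    (rtg_lift σ (fun a b h => ⟨hadj _ _ h.1, by simpa [hσ] using h.2⟩) hpath)
  refine ⟨σ p', σ q', by rw [hσ, h1], by rw [hσ, h2], ?_⟩
  refine rtg_lift σ (fun a b h => ⟨?_, ?_, hnear _ _ h.2.2⟩) h3
  · obtain ⟨g1, g2, w, g3, g4, g5⟩ := h.1
    exact ⟨g1, g2, σ w, g3, g4, hadj _ _ g5⟩
  · obtain ⟨g1, g2, w, g3, g4, g5⟩ := h.2.1
    exact ⟨g1, g2, σ w, g3, g4, hadj _ _ g5⟩

lemma strip_down (C U : Set V) (N : ℤ) (hC : ∀ v ∈ C, -v.2 ≤ N)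
    (hU : ∀ v ∈ U, ((v.1, v.2 - 1) : V) ∈ U) {p q : V} (hp : p ∈ C) (hpU : p ∈ U)
    (hpath : ReflTransGen (fun a b => adj a b ∧ b ∈ C ∧ b ∈ U) p q) :
    ∃ p' q' : V, p'.1 = p.1 ∧ q'.1 = q.1 ∧
      Chain {v | v ∈ C ∧ v ∈ U ∧ ∃ w ∈ U, w ∉ C ∧ adj v w} p' q' :=
  strip_inv (fun v => (v.1, -v.2)) (by simp) (by intro a b; simp only [adj]; omega)
    (by intro a b; simp only [near]; omega) C U N hC
    (fun v hv => by have := hU _ hv; simp only at this ⊢; convert this using 2; ring) hp hpU hpath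

lemma strip_right (C U : Set V) (N : ℤ) (hC : ∀ v ∈ C, v.1 ≤ N)
    (hU : ∀ v ∈ U, ((v.1 + 1, v.2) : V) ∈ U) {p q : V} (hp : p ∈ C) (hpU : p ∈ U)
    (hpath : ReflTransGen (fun a b => adj a b ∧ b ∈ C ∧ b ∈ U) p q) :
    ∃ p' q' : V, p'.2 = p.2 ∧ q'.2 = q.2 ∧
      Chain {v | v ∈ C ∧ v ∈ U ∧ ∃ w ∈ U, w ∉ C ∧ adj v w} p' q' :=
  strip_inv (fun v => (v.2, v.1)) (by simp) (by intro a b; simp only [adj]; omega)
    (by intro a b; simp only [near]; omega) C U N hC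
    (fun v hv => hU _ hv) hp hpU hpath

/-- Oriented edge `(a, b)` leaving the ball of radius `L` around `u`, on the side away from `v`. -/
def Lam (u v : V) (L : ℤ) (a b : V) : Prop :=
  adj a b ∧ d1 u a = L ∧ d1 u b = L + 1 ∧ d1 u b < d1 v b

def LamS (u v : V) (L : ℤ) (a b : V) : Prop := Lam u v L a b ∨ Lam u v L b a

lemma escape_up (O : V → V → Prop) (hOs : ∀ a b, O a b → O b a) (hOa : ∀ a b, O a b → adj a b)
    (u : V) (L W R : ℤ) (hW : 1 ≤ W)
    (hb : ∀ v, ReflTransGen O 0 v → linf v 0 ≤ R)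
    (hΛ : ∀ a b, ReflTransGen O 0 a → O a b → ¬ LamS u (u.1, u.2 - 1) L a b)
    (w : V) (hw : ReflTransGen O 0 w) (hfar : 20 * W ≤ linf w 0) :
    ∃ p q, W ≤ linf p q ∧ Chain {a | ReflTransGen O 0 a ∧
      ∃ b, adj a b ∧ ¬ O a b ∧ ¬ LamS u (u.1, u.2 - 1) L a b} p q := by
  set C : Set V := {v | ReflTransGen O 0 v} with hCdef
  have hconn : ∀ s t, s ∈ C → t ∈ C → ReflTransGen O s t :=
    fun s t hs ht => (rtg_symm hOs hs).trans ht
  have hstepC : ∀ a b, a ∈ C → O a b → b ∈ C := fun a b ha h => ReflTransGen.tail ha h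
  have fin : ∀ (U : Set V), (∀ a b, a ∈ C → a ∈ U → b ∈ U → ¬ LamS u (u.1, u.2 - 1) L a b) →
      ∀ p q, Chain {v | v ∈ C ∧ v ∈ U ∧ ∃ w ∈ U, w ∉ C ∧ adj v w} p q →
      Chain {a | ReflTransGen O 0 a ∧
        ∃ b, adj a b ∧ ¬ O a b ∧ ¬ LamS u (u.1, u.2 - 1) L a b} p q := by
    intro U hU p q h
    refine Chain.mono ?_ h
    rintro a ⟨h1, h2, b, h3, h4, h5⟩
    exact ⟨h1, b, h5, fun ho => h4 (hstepC _ _ h1 ho), hU a b h1 h2 h3⟩
  have bd1 : ∀ v ∈ C, v.2 ≤ R := fun v hv => by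
    have := hb v hv; simp only [linf, Prod.fst_zero, Prod.snd_zero] at this; omega
  have bd2 : ∀ v ∈ C, -v.2 ≤ R := fun v hv => by
    have := hb v hv; simp only [linf, Prod.fst_zero, Prod.snd_zero] at this; omega
  have bd3 : ∀ v ∈ C, v.1 ≤ R := fun v hv => by
    have := hb v hv; simp only [linf, Prod.fst_zero, Prod.snd_zero] at this; omega
  by_cases hH : ∃ s ∈ C, ∃ t ∈ C, s.1 + 3 * W ≤ t.1
  · obtain ⟨s, hs, t, ht, hst⟩ := hH
    obtain ⟨lo, hlo1, hlo2, hlo3⟩ : ∃ lo, s.1 ≤ lo ∧ lo + W ≤ t.1 ∧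
        (lo + W < u.1 - L ∨ u.1 + L < lo ∨ (u.1 - L ≤ lo ∧ lo + W ≤ u.1 + L)) := by
      by_cases h1 : s.1 + W < u.1 - L
      · exact ⟨s.1, by omega⟩
      · by_cases h2 : u.1 + L < t.1 - W
        · exact ⟨t.1 - W, by omega⟩
        · exact ⟨max s.1 (u.1 - L), by omega⟩
    obtain ⟨p, q, hp, hp1, hq1, hpq⟩ := cross O Prod.fst
      (fun a b h => by have := hOa a b h; unfold adj at this; omega) lo (lo + W) (by omega)
      (hconn s t hs ht) hlo1 hlo2
    have hpC : p ∈ C := ReflTransGen.trans hs hp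
    have conc : ∀ p' q' : V, p'.1 = p.1 → q'.1 = q.1 → W ≤ linf p' q' := by
      intro p' q' h1 h2; simp only [linf]; omega
    by_cases hmid : u.1 - L ≤ lo ∧ lo + W ≤ u.1 + L
    · by_cases hab : u.2 + L - ((p.1 - u.1).natAbs : ℤ) < p.2
      · let U : Set V := {v | lo ≤ v.1 ∧ v.1 ≤ lo + W ∧ u.2 + L - ((v.1 - u.1).natAbs : ℤ) < v.2}
        have hpU : p ∈ U := ⟨by omega, by omega, hab⟩
        have := rtg_inv (r' := fun a b => adj a b ∧ b ∈ C ∧ b ∈ U) (I := fun a => a ∈ C ∧ a ∈ U)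
          (by
            rintro a b ⟨ha, haU⟩ ⟨ho, g1, g2, g3, g4⟩
            have hbU : b ∈ U := by
              refine ⟨g3, g4, ?_⟩
              by_contra hn
              apply hΛ a b ha ho
              have h5 := hOa _ _ ho
              right
              refine ⟨h5.symm, ?_⟩
              have := haU.2.2
              simp only [d1, adj] at *
              omega
            exact ⟨⟨hOa _ _ ho, hstepC _ _ ha ho, hbU⟩, hstepC _ _ ha ho, hbU⟩) ⟨hpC, hpU⟩ hpq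
        obtain ⟨p', q', h1, h2, h3⟩ := strip_up C U R bd1
          (fun v hv => by simp only [U, mem_ofPred_eq] at hv ⊢; omega) hpC hpU this.1
        refine ⟨p', q', conc _ _ h1 h2, fin U ?_ _ _ h3⟩
        intro a b _ ha hb
        simp only [U, mem_ofPred_eq, LamS, Lam, d1, adj] at ha hb ⊢
        omega
      · let U : Set V := {v | lo ≤ v.1 ∧ v.1 ≤ lo + W ∧ v.2 ≤ u.2 + L - ((v.1 - u.1).natAbs : ℤ)}
        have hpU : p ∈ U := ⟨by omega, by omega, by omega⟩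
        have := rtg_inv (r' := fun a b => adj a b ∧ b ∈ C ∧ b ∈ U) (I := fun a => a ∈ C ∧ a ∈ U)
          (by
            rintro a b ⟨ha, haU⟩ ⟨ho, g1, g2, g3, g4⟩
            have hbU : b ∈ U := by
              refine ⟨g3, g4, ?_⟩
              by_contra hn
              apply hΛ a b ha ho
              have h5 := hOa _ _ ho
              left
              refine ⟨h5, ?_⟩
              have := haU.2.2
              simp only [d1, adj] at *
              omega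
            exact ⟨⟨hOa _ _ ho, hstepC _ _ ha ho, hbU⟩, hstepC _ _ ha ho, hbU⟩) ⟨hpC, hpU⟩ hpq
        obtain ⟨p', q', h1, h2, h3⟩ := strip_down C U R bd2
          (fun v hv => by simp only [U, mem_ofPred_eq] at hv ⊢; omega) hpC hpU this.1
        refine ⟨p', q', conc _ _ h1 h2, fin U ?_ _ _ h3⟩
        intro a b _ ha hb
        simp only [U, mem_ofPred_eq, LamS, Lam, d1, adj] at ha hb ⊢
        omega
    · let U : Set V := {v | lo ≤ v.1 ∧ v.1 ≤ lo + W}
      have hpU : p ∈ U := ⟨by omega, by omega⟩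
      have := rtg_inv (r' := fun a b => adj a b ∧ b ∈ C ∧ b ∈ U) (I := fun a => a ∈ C)
        (by
          rintro a b ha ⟨ho, g1, g2, g3, g4⟩
          exact ⟨⟨hOa _ _ ho, hstepC _ _ ha ho, ⟨g3, g4⟩⟩, hstepC _ _ ha ho⟩) hpC hpq
      obtain ⟨p', q', h1, h2, h3⟩ := strip_up C U R bd1 (fun v hv => hv) hpC hpU this.1
      refine ⟨p', q', conc _ _ h1 h2, fin U ?_ _ _ h3⟩
      intro a b _ ha hb
      simp only [U, mem_ofPred_eq, LamS, Lam, d1, adj] at ha hb ⊢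
      omega
  · push Not at hH
    have h0 : (0 : V) ∈ C := ReflTransGen.refl
    have nar : ∀ v ∈ C, -(3 * W) < v.1 ∧ v.1 < 3 * W := by
      intro v hv
      have a1 := hH v hv 0 h0
      have a2 := hH 0 h0 v hv
      simp only [Prod.fst_zero] at a1 a2
      omega
    obtain ⟨s, hs, t, ht, hst⟩ : ∃ s ∈ C, ∃ t ∈ C, s.2 + 20 * W ≤ t.2 := by
      have := nar w hw
      simp only [linf, Prod.fst_zero, Prod.snd_zero] at hfar
      by_cases hw2 : 0 ≤ w.2
      · exact ⟨0, h0, w, hw, by simp only [Prod.snd_zero]; omega⟩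
      · exact ⟨w, hw, 0, h0, by simp only [Prod.snd_zero]; omega⟩
    obtain ⟨lo, hlo1, hlo2, hlo3⟩ : ∃ lo, s.2 ≤ lo ∧ lo + W ≤ t.2 ∧
        (lo + W < u.2 + L - (u.1.natAbs : ℤ) - 3 * W ∨
          u.2 + L - (u.1.natAbs : ℤ) + 3 * W + 1 < lo) := by
      by_cases h1 : s.2 + W < u.2 + L - (u.1.natAbs : ℤ) - 3 * W
      · exact ⟨s.2, by omega⟩
      · exact ⟨t.2 - W, by omega⟩
    obtain ⟨p, q, hp, hp1, hq1, hpq⟩ := cross O Prod.snd
      (fun a b h => by have := hOa a b h; unfold adj at this; omega) lo (lo + W) (by omega)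
      (hconn s t hs ht) hlo1 hlo2
    have hpC : p ∈ C := ReflTransGen.trans hs hp
    let U : Set V := {v | lo ≤ v.2 ∧ v.2 ≤ lo + W}
    have hpU : p ∈ U := ⟨by omega, by omega⟩
    have := rtg_inv (r' := fun a b => adj a b ∧ b ∈ C ∧ b ∈ U) (I := fun a => a ∈ C)
      (by
        rintro a b ha ⟨ho, g1, g2, g3, g4⟩
        exact ⟨⟨hOa _ _ ho, hstepC _ _ ha ho, ⟨g3, g4⟩⟩, hstepC _ _ ha ho⟩) hpC hpq
    obtain ⟨p', q', h1, h2, h3⟩ := strip_right C U R bd3 (fun v hv => hv) hpC hpU this.1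
    refine ⟨p', q', by simp only [linf]; omega, fin U ?_ _ _ h3⟩
    intro a b hC ha hb
    have := nar a hC
    simp only [U, mem_ofPred_eq, LamS, Lam, d1, adj] at ha hb ⊢
    omega

lemma escape_inv (σ : V → V) (hσ : ∀ v, σ (σ v) = v) (h0 : σ 0 = 0)
    (hadj : ∀ a b, adj a b → adj (σ a) (σ b))
    (hnear : ∀ a b, near a b → near (σ a) (σ b))
    (hd1 : ∀ a b, d1 (σ a) (σ b) = d1 a b) (hlinf : ∀ a b, linf (σ a) (σ b) = linf a b)
    (O : V → V → Prop) (hOs : ∀ a b, O a b → O b a) (hOa : ∀ a b, O a b → adj a b)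
    (u v : V) (huv : σ v = ((σ u).1, (σ u).2 - 1)) (L W R : ℤ) (hW : 1 ≤ W)
    (hb : ∀ v, ReflTransGen O 0 v → linf v 0 ≤ R)
    (hΛ : ∀ a b, ReflTransGen O 0 a → O a b → ¬ LamS u v L a b)
    (w : V) (hw : ReflTransGen O 0 w) (hfar : 20 * W ≤ linf w 0) :
    ∃ p q, W ≤ linf p q ∧ Chain {a | ReflTransGen O 0 a ∧
      ∃ b, adj a b ∧ ¬ O a b ∧ ¬ LamS u v L a b} p q := by
  have hLam : ∀ u v a b, Lam u v L a b → Lam (σ u) (σ v) L (σ a) (σ b) := by
    rintro u v a b ⟨h1, h2, h3, h4⟩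
    exact ⟨hadj _ _ h1, by rwa [hd1], by rwa [hd1], by rwa [hd1, hd1]⟩
  have hLamS : ∀ u v a b, LamS u v L a b → LamS (σ u) (σ v) L (σ a) (σ b) :=
    fun u v a b h => h.imp (hLam _ _ _ _) (hLam _ _ _ _)
  have back : ∀ a, ReflTransGen (fun a b => O (σ a) (σ b)) 0 a → ReflTransGen O 0 (σ a) := by
    intro a h
    have := rtg_lift (r' := O) σ (fun a b h => h) h
    rwa [h0] at this
  obtain ⟨p, q, h1, h2⟩ := escape_up (fun a b => O (σ a) (σ b)) (fun a b h => hOs _ _ h)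
    (fun a b h => by simpa [hσ] using hadj _ _ (hOa _ _ h)) (σ u) L W R hW
    (fun a ha => by have := hb _ (back a ha); rwa [← h0, hlinf] at this)
    (fun a b ha ho hl => hΛ _ _ (back a ha) ho (by
      have := hLamS _ _ _ _ hl
      rwa [← huv, hσ, hσ] at this))
    (σ w) (by
      have := rtg_lift (r' := fun a b => O (σ a) (σ b)) σ
        (fun a b h => by simpa [hσ] using h) hw
      rwa [h0] at this)
    (by rwa [← h0, hlinf])
  refine ⟨σ p, σ q, by rwa [hlinf], ?_⟩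
  have tr : ∀ a, a ∈ {a | ReflTransGen (fun a b => O (σ a) (σ b)) 0 a ∧
      ∃ b, adj a b ∧ ¬ O (σ a) (σ b) ∧ ¬ LamS (σ u) ((σ u).1, (σ u).2 - 1) L a b} →
      σ a ∈ {a | ReflTransGen O 0 a ∧ ∃ b, adj a b ∧ ¬ O a b ∧ ¬ LamS u v L a b} := by
    rintro a ⟨g1, b, g2, g3, g4⟩
    refine ⟨back a g1, σ b, hadj _ _ g2, g3, fun hl => g4 ?_⟩
    have := hLamS _ _ _ _ hl
    rwa [hσ, hσ, huv] at this
  exact rtg_lift σ (fun a b h => ⟨tr _ h.1, tr _ h.2.1, hnear _ _ h.2.2⟩) h2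

/-- A bounded but long open cluster has a long stretch of boundary that avoids a given obstacle. -/
theorem escape (O : V → V → Prop) (hOs : ∀ a b, O a b → O b a) (hOa : ∀ a b, O a b → adj a b)
    (u v : V) (huv : adj u v) (L W R : ℤ) (hW : 1 ≤ W)
    (hb : ∀ v, ReflTransGen O 0 v → linf v 0 ≤ R)
    (hΛ : ∀ a b, ReflTransGen O 0 a → O a b → ¬ LamS u v L a b)
    (w : V) (hw : ReflTransGen O 0 w) (hfar : 20 * W ≤ linf w 0) :
    ∃ p q, W ≤ linf p q ∧ Chain {a | ReflTransGen O 0 a ∧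
      ∃ b, adj a b ∧ ¬ O a b ∧ ¬ LamS u v L a b} p q := by
  rcases huv with ⟨h1, h2 | h2⟩ | ⟨h1, h2 | h2⟩
  · exact escape_inv id (by simp) rfl (by simp) (by simp) (by simp) (by simp) O hOs hOa u v
      (by ext <;> simp <;> omega) L W R hW hb hΛ w hw hfar
  · exact escape_inv (fun v => (v.1, -v.2)) (by simp) (by simp)
      (by intro a b; simp only [adj]; omega) (by intro a b; simp only [near]; omega)
      (by intro a b; simp only [d1]; omega) (by intro a b; simp only [linf]; omega) O hOs hOa u v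
      (by ext <;> simp <;> omega) L W R hW hb hΛ w hw hfar
  · exact escape_inv (fun v => (v.2, v.1)) (by simp) (by simp)
      (by intro a b; simp only [adj]; omega) (by intro a b; simp only [near]; omega)
      (by intro a b; simp only [d1]; omega) (by intro a b; simp only [linf]; omega) O hOs hOa u v
      (by ext <;> simp <;> omega) L W R hW hb hΛ w hw hfar
  · exact escape_inv (fun v => (-v.2, -v.1)) (by simp) (by simp)
      (by intro a b; simp only [adj]; omega) (by intro a b; simp only [near]; omega)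
      (by intro a b; simp only [d1]; omega) (by intro a b; simp only [linf]; omega) O hOs hOa u v
      (by ext <;> simp <;> omega) L W R hW hb hΛ w hw hfar

end Pool.Agent.MP_77ae5d_pr.H74
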